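import Pool.Agent.Work.MP_bec1e1_BASE_h85.Mean
import Pool.Agent.Work.MP_bec1e1_lv_helper15.Interface0
import Pool.Agent.Work.MP_bec1e1_lv_helper15.Tools0

/-!
# BASE: block `Stmt_BASE` from `Stmt_PHI` and `Stmt_DEF`
-/

set_option autoImplicit false

open scoped BigOperators

namespace Pool.Agent.LCSB85

open Pool.Agent.LCSE Pool.Agent.LCSV

variable {k : ℕ}

lemma Ex_two (hk : 0 < k) {n a b : ℕ} (h : a + b ≤ n) (f : List (Fin k) → List (Fin k) → ℝ) :
    Ex k n (fun X => f (X.take a) ((X.drop a).take b)) = Ex k a fun u => Ex k b fun v => f u v := by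
  obtain ⟨d, rfl⟩ := Nat.exists_eq_add_of_le h
  rw [add_assoc, Ex_append]
  apply Ex_congr
  intro u hu
  rw [Ex_append]
  apply Ex_congr
  intro v hv
  have : ∀ w : List (Fin k), f ((u ++ (v ++ w)).take a) (((u ++ (v ++ w)).drop a).take b) =
      f u v := by
    intro w
    rw [List.drop_left' hu, List.take_left' hv, List.take_left' hu]
  simp only [this]
  exact Ex_const hk _ _

lemma abs_E2_le (a b : ℕ) (f : List (Fin k) → List (Fin k) → ℝ) :
    |E2 k a b f| ≤ E2 k a b fun x y => |f x y| := by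
  rw [abs_le]
  constructor
  · have h1 : E2 k a b (fun x y => (-1) * |f x y|) ≤ E2 k a b f :=
      E2_mono fun x y _ _ => by linarith [neg_abs_le (f x y)]
    rw [E2_const_mul] at h1
    linarith
  · exact E2_mono fun x y _ _ => le_abs_self _

lemma FF_comm (a b : ℕ) : FF k a b = FF k b a := by
  unfold FF E2
  rw [Ex_comm]
  apply Ex_congr
  intro w _
  apply Ex_congr
  intro w' _
  rw [L_comm]

/-- two boxes in a square -/
lemma two_box (hk : 0 < k) (a b D : ℕ) :
    E2 k a b (fun x y => |(L x y : ℝ) - FF k a b|) ≤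
      E2 k (a + b + D) (a + b + D) (fun x y => |(L x y : ℝ) - FF k (a + b + D) (a + b + D)|) +
      2 * (FF k (a + b + D) (a + b + D) - 2 * FF k a b) := by
  set N := a + b + D with hN
  set μ := FF k a b with hμ
  set M := FF k N N with hM
  have step1 : E2 k a b (fun x y => |(L x y : ℝ) - μ|) ≤
      E2 k N N (fun X Y => |(L (X.take a) (Y.take b) : ℝ) +
        L ((X.drop a).take b) ((Y.drop b).take a) - 2 * μ|) := by
    have h1 : E2 k N N (fun X Y => |(L (X.take a) (Y.take b) : ℝ) +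
        L ((X.drop a).take b) ((Y.drop b).take a) - 2 * μ|) =
        E2 k a b fun u u' => E2 k b a fun v v' => |(L u u' : ℝ) + L v v' - 2 * μ| := by
      unfold E2
      have h2 : ∀ X : List (Fin k), Ex k N (fun Y => |(L (X.take a) (Y.take b) : ℝ) +
        L ((X.drop a).take b) ((Y.drop b).take a) - 2 * μ|) =
          (fun u v => Ex k b fun u' => Ex k a fun v' => |(L u u' : ℝ) + L v v' - 2 * μ|)
            (X.take a) ((X.drop a).take b) := by
        intro X
        exact Ex_two hk (by omega) (fun u' v' => |(L (X.take a) u' : ℝ) +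
          L ((X.drop a).take b) v' - 2 * μ|)
      simp only [h2]
      rw [Ex_two hk (by omega) (fun u v => Ex k b fun u' => Ex k a fun v' =>
        |(L u u' : ℝ) + L v v' - 2 * μ|)]
      apply Ex_congr
      intro u _
      rw [Ex_comm]
    rw [h1]
    apply E2_mono
    intro u u' _ _
    have h3 : (L u u' : ℝ) - μ = E2 k b a fun v v' => (L u u' : ℝ) + L v v' - 2 * μ := by
      rw [E2_sub, E2_const hk, E2_add, E2_const hk]
      have : E2 k b a (fun v v' => (L v v' : ℝ)) = μ := by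
        rw [hμ, FF_comm]; rfl
      rw [this]; ring
    rw [h3]
    exact abs_E2_le _ _ _
  have hL1 : E2 k N N (fun X Y => (L (X.take a) (Y.take b) : ℝ)) = μ := by
    have := E2_win hk (a := N) (b := N) (g1 := 0) (c1 := a) (g2 := 0) (c2 := b) (by omega)
      (by omega) (fun x y => (L x y : ℝ))
    simp only [List.drop_zero] at this
    exact this
  have hL2 : E2 k N N (fun X Y => (L ((X.drop a).take b) ((Y.drop b).take a) : ℝ)) = μ := by
    have := E2_win hk (a := N) (b := N) (g1 := a) (c1 := b) (g2 := b) (c2 := a) (by omega)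
      (by omega) (fun x y => (L x y : ℝ))
    rw [this, hμ, FF_comm]; rfl
  have hsup : ∀ X Y : List (Fin k), (L (X.take a) (Y.take b) : ℝ) +
      L ((X.drop a).take b) ((Y.drop b).take a) ≤ L X Y := by
    intro X Y
    have h1 := L_append_ge (X.take a) (X.drop a) (Y.take b) (Y.drop b)
    rw [List.take_append_drop, List.take_append_drop] at h1
    have h2 : L ((X.drop a).take b) ((Y.drop b).take a) ≤ L (X.drop a) (Y.drop b) :=
      L_mono (List.take_sublist _ _) (List.take_sublist _ _)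
    have h3 : L (X.take a) (Y.take b) + L ((X.drop a).take b) ((Y.drop b).take a) ≤ L X Y := by
      omega
    exact_mod_cast h3
  have hM2 : 0 ≤ M - 2 * μ := by
    have h1 : E2 k N N (fun X Y => (L (X.take a) (Y.take b) : ℝ) +
      L ((X.drop a).take b) ((Y.drop b).take a)) ≤ M := E2_mono fun X Y _ _ => hsup X Y
    rw [E2_add, hL1, hL2] at h1
    linarith
  refine step1.trans ?_
  calc E2 k N N (fun X Y => |(L (X.take a) (Y.take b) : ℝ) +
        L ((X.drop a).take b) ((Y.drop b).take a) - 2 * μ|)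
      ≤ E2 k N N (fun X Y => (|(L X Y : ℝ) - M| + ((L X Y : ℝ) - ((L (X.take a) (Y.take b) : ℝ) +
        L ((X.drop a).take b) ((Y.drop b).take a)))) + (M - 2 * μ)) := by
        apply E2_mono
        intro X Y _ _
        have h1 := hsup X Y
        have h2 := le_abs_self ((L X Y : ℝ) - M)
        have h3 := neg_abs_le ((L X Y : ℝ) - M)
        rw [abs_le]
        constructor <;> linarith
    _ = E2 k N N (fun x y => |(L x y : ℝ) - M|) + 2 * (M - 2 * μ) := by
        rw [E2_add, E2_const hk, E2_add, E2_sub, E2_add, hL1, hL2]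
        have : E2 k N N (fun x y => (L x y : ℝ)) = M := rfl
        rw [this]; ring

lemma E2_abs_le_var (hk : 0 < k) (N : ℕ) {t : ℝ} (ht : 0 < t) :
    E2 k N N (fun x y => |(L x y : ℝ) - FF k N N|) ≤ t / 2 + VarL k N / (2 * t) := by
  calc E2 k N N (fun x y => |(L x y : ℝ) - FF k N N|)
      ≤ E2 k N N (fun x y => t / 2 + (1 / (2 * t)) * ((L x y : ℝ) - FF k N N) ^ 2) := by
        apply E2_mono
        intro x y _ _
        have h2 : 0 ≤ (|(L x y : ℝ) - FF k N N| - t) ^ 2 := sq_nonneg _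
        have h3 : |(L x y : ℝ) - FF k N N| ^ 2 = ((L x y : ℝ) - FF k N N) ^ 2 := sq_abs _
        rw [← h3, ← sub_nonneg]
        have : t / 2 + 1 / (2 * t) * |(L x y : ℝ) - FF k N N| ^ 2 - |(L x y : ℝ) - FF k N N| =
            (1 / (2 * t)) * ((|(L x y : ℝ) - FF k N N| - t) ^ 2) := by
          field_simp
          ring
        rw [this]
        positivity
    _ = t / 2 + (1 / (2 * t)) * VarL k N := by
        rw [E2_add, E2_const hk, E2_const_mul]; rfl
    _ = _ := by ring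

lemma ind_le_of_imp {P : Prop} {z : ℝ} (h0 : 0 ≤ z) (h1 : P → 1 ≤ z) : ind P ≤ z := by
  unfold ind
  split_ifs with h
  · exact h1 h
  · exact h0

theorem base_rho_one (hk : 2 ≤ k) (hP : PhiFacts k) {C : ℝ} (_hC : 0 < C)
    (hD : ∀ a b : ℕ, Phi k a b - F k a b ≤ C * √((a : ℝ) + b)) (hR : Rigid k)
    (h1 : rho k = 1) : ∀ ε τ : ℝ, 0 < ε → 0 < τ →
    ∀ N₀ : ℕ, ∃ m b : ℕ, N₀ ≤ m ∧ Flat k m b ∧ (rho k - τ) * m ≤ b ∧
    (Ex k m fun x => Ex k b fun y =>
      ind ((L x y : ℝ) ≤ al k * ((m : ℝ) + b) - (C * √2 + 1) * √(m : ℝ))) ≤ ε := by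
  have hk0 : 0 < k := by omega
  intro ε τ hε hτ N₀
  obtain ⟨N, hN, hV⟩ := hR ε hε (max N₀ 1)
  have hN0 : N₀ ≤ N := (le_max_left _ _).trans hN
  have hN1 : 1 ≤ N := (le_max_right _ _).trans hN
  have hNr : (0 : ℝ) < N := by exact_mod_cast hN1
  have hfl : Flat k N N := by
    have h := hP.hom N 1 1 hNr.le zero_le_one zero_le_one
    rw [mul_one] at h
    unfold Flat
    rw [h]
    unfold al gam
    ring
  refine ⟨N, N, hN0, hfl, ?_, ?_⟩
  · rw [h1]; nlinarith
  · have h2 := hD N N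
    rw [hfl] at h2
    have h3 : √((N : ℝ) + N) = √2 * √N := by
      rw [← Real.sqrt_mul (by norm_num : (0 : ℝ) ≤ 2)]; congr 1; ring
    rw [h3] at h2
    have hs : √(N : ℝ) ^ 2 = N := Real.sq_sqrt hNr.le
    have hs0 : 0 ≤ √(N : ℝ) := Real.sqrt_nonneg _
    calc (Ex k N fun x => Ex k N fun y =>
        ind ((L x y : ℝ) ≤ al k * ((N : ℝ) + N) - (C * √2 + 1) * √(N : ℝ)))
        ≤ E2 k N N (fun x y => (1 / N) * ((L x y : ℝ) - F k N N) ^ 2) := by
          apply E2_mono
          intro x y _ _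
          apply ind_le_of_imp (by positivity)
          intro h
          rw [one_div, inv_mul_eq_div, le_div_iff₀ hNr, one_mul, ← hs]
          have h4 : √(N : ℝ) ≤ -((L x y : ℝ) - F k N N) := by
            have e1 : (C * √2 + 1) * √(N : ℝ) = C * (√2 * √N) + √N := by ring
            rw [e1] at h
            linarith only [h, h2]
          have h5 := pow_le_pow_left₀ hs0 h4 2
          rw [neg_sq] at h5
          exact h5
      _ = (1 / N) * VarL k N := by
          rw [E2_const_mul]; rfl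
      _ ≤ (1 / N) * (ε * N) := mul_le_mul_of_nonneg_left hV (by positivity)
      _ = ε := by field_simp

/-- length of the two boxes -/
noncomputable def SZ (ρ : ℝ) (Z m : ℕ) : ℕ := m + 2 * (m / Z) + (⌊ρ * m⌋₊ + 2 * (m / Z))

lemma exists_box {ρ : ℝ} (hρ : 1 ≤ ρ) {Z : ℕ} (hZ : 1 ≤ Z) (N : ℕ) :
    ∃ m D : ℕ, N = SZ ρ Z m + D ∧ (D : ℝ) ≤ ρ + 6 ∧ (SZ ρ Z m : ℝ) ≤ (ρ + 5) * m := by
  set m := Nat.findGreatest (fun m => SZ ρ Z m ≤ N) N with hm
  have hS0 : SZ ρ Z 0 ≤ N := by simp [SZ]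
  have hS1 : SZ ρ Z m ≤ N := Nat.findGreatest_spec (P := fun m => SZ ρ Z m ≤ N) (Nat.zero_le N) hS0
  have hS2 : N < SZ ρ Z (m + 1) := by
    by_contra hcon
    push Not at hcon
    have h1 : m + 1 ≤ SZ ρ Z (m + 1) := by unfold SZ; omega
    have h2 : m + 1 ≤ N := h1.trans hcon
    have h3 : m + 1 ≤ Nat.findGreatest (fun m => SZ ρ Z m ≤ N) N :=
      Nat.le_findGreatest h2 hcon
    omega
  have hS3 : (SZ ρ Z (m + 1) : ℝ) ≤ SZ ρ Z m + (ρ + 6) := by
    have h1 : (m + 1) / Z ≤ m / Z + 1 := by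
      calc (m + 1) / Z ≤ (m + Z) / Z := Nat.div_le_div_right (by omega)
        _ = m / Z + 1 := Nat.add_div_right m hZ
    have h1' : (((m + 1) / Z : ℕ) : ℝ) ≤ (m / Z : ℕ) + 1 := by exact_mod_cast h1
    have h2 : ((⌊ρ * ((m + 1 : ℕ) : ℝ)⌋₊ : ℕ) : ℝ) ≤ ρ * ((m + 1 : ℕ) : ℝ) :=
      Nat.floor_le (by positivity)
    have h3 : ρ * (m : ℝ) < (⌊ρ * (m : ℝ)⌋₊ : ℕ) + 1 := Nat.lt_floor_add_one _
    unfold SZ
    push_cast at h2 ⊢
    linarith
  have hD : N = SZ ρ Z m + (N - SZ ρ Z m) := by omega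
  refine ⟨m, N - SZ ρ Z m, hD, ?_, ?_⟩
  · have h1 : (N : ℝ) < SZ ρ Z (m + 1) := by exact_mod_cast hS2
    rw [Nat.cast_sub hS1]
    linarith
  · have h2 : ((⌊ρ * (m : ℝ)⌋₊ : ℕ) : ℝ) ≤ ρ * (m : ℝ) := Nat.floor_le (by positivity)
    have h3 : ((m / Z : ℕ) : ℝ) ≤ m := by exact_mod_cast Nat.div_le_self m Z
    unfold SZ
    push_cast
    linarith

theorem base_rho_gt (hk : 2 ≤ k) (hP : PhiFacts k) {C : ℝ} (hC : 0 < C)
    (hD : ∀ a b : ℕ, Phi k a b - F k a b ≤ C * √((a : ℝ) + b)) (hR : Rigid k)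
    (h1 : 1 < rho k) : ∀ ε τ : ℝ, 0 < ε → 0 < τ →
    ∀ N₀ : ℕ, ∃ m b : ℕ, N₀ ≤ m ∧ Flat k m b ∧ (rho k - τ) * m ≤ b ∧
    (Ex k m fun x => Ex k b fun y =>
      ind ((L x y : ℝ) ≤ al k * ((m : ℝ) + b) - 1 * √(m : ℝ))) ≤ ε := by
  have hk0 : 0 < k := by omega
  have hα0 : 0 < al k := by unfold al; linarith [hP.gam_pos]
  have hα1 : al k ≤ 1 / 2 := by unfold al; linarith [hP.gam_lt]
  have hcone : Cone k (al k) (rho k) C := by
    refine ⟨hk0, hα0.le, by linarith, hC.le, h1, ?_, ?_, ?_⟩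
    · intro a b
      exact (hP.F_le a b).trans (hP.line a b (Nat.cast_nonneg _) (Nat.cast_nonneg _))
    · intro a b hab hba
      have hfl : Flat k a b :=
        (hP.flat_iff a b (Nat.cast_nonneg _) (Nat.cast_nonneg _)).mpr ⟨hab, hba⟩
      have h2 := hD a b
      rw [hfl] at h2
      have h3 : F k a b = FF k a b := rfl
      rw [← h3]
      linarith only [h2]
    · intro κ hκ
      obtain ⟨c, hc, h⟩ := hP.deficit κ hκ
      exact ⟨c, hc, fun a b hab => (hP.F_le a b).trans (h a b (Nat.cast_nonneg _) hab)⟩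
  intro ε τ hε hτ N₀
  set ρ := rho k with hρdef
  set ε₂ := min (1 / 2) (ε / 32) with hε₂
  have hε₂0 : 0 < ε₂ := lt_min (by norm_num) (by positivity)
  have hε₂1 : ε₂ ≤ 1 / 2 := min_le_left _ _
  have hε₂2 : ε₂ ≤ ε / 32 := min_le_right _ _
  obtain ⟨Z0, hZ0⟩ := box_mean hcone ε₂ hε₂0
  obtain ⟨Z1, hZ1⟩ := exists_nat_ge (4 * (ρ - 1) / τ)
  set Z := max (max Z0 Z1) 1 with hZ
  have hZa : Z0 ≤ Z := (le_max_left _ _).trans (le_max_left _ _)
  have hZb : Z1 ≤ Z := (le_max_right _ _).trans (le_max_left _ _)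
  have hZc : 1 ≤ Z := le_max_right _ _
  obtain ⟨M0, hM0⟩ := hZ0 Z hZa
  set s := ε / 8 with hs
  have hs0 : 0 < s := by positivity
  obtain ⟨M2, hM2⟩ := exists_nat_ge (2 / τ)
  obtain ⟨M3, hM3⟩ := exists_nat_ge ((16 * (ρ + 6) / ε) ^ 2)
  set M1 := max (max M0 N₀) (max (max M2 M3) 1) with hM1
  obtain ⟨N1, hN1⟩ := exists_nat_ge ((ρ + 5) * M1 + (ρ + 6))
  obtain ⟨N, hN, hV⟩ := hR (s ^ 2 / (2 * ρ + 11)) (by positivity) N1
  obtain ⟨m, D, hND, hD6, hSm⟩ := exists_box h1.le hZc N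
  have hNm : (N : ℝ) ≤ (ρ + 5) * m + (ρ + 6) := by
    rw [hND]; push_cast; linarith
  have hmM : M1 ≤ m := by
    have h2 : (ρ + 5) * (M1 : ℝ) + (ρ + 6) ≤ (ρ + 5) * m + (ρ + 6) :=
      hN1.trans ((by exact_mod_cast hN : (N1 : ℝ) ≤ N).trans hNm)
    have h3 : (ρ + 5) * (M1 : ℝ) ≤ (ρ + 5) * m := by linarith
    have h4 : (M1 : ℝ) ≤ m := le_of_mul_le_mul_left h3 (by linarith)
    exact_mod_cast h4
  have hm0 : M0 ≤ m := ((le_max_left _ _).trans (le_max_left _ _)).trans hmM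
  have hmN : N₀ ≤ m := ((le_max_right _ _).trans (le_max_left _ _)).trans hmM
  have hm2 : M2 ≤ m := ((le_max_left _ _).trans ((le_max_left _ _).trans (le_max_right _ _))).trans hmM
  have hm3 : M3 ≤ m := ((le_max_right _ _).trans ((le_max_left _ _).trans (le_max_right _ _))).trans hmM
  have hm1 : 1 ≤ m := ((le_max_right _ _).trans (le_max_right _ _)).trans hmM
  have hmr : (1 : ℝ) ≤ m := by exact_mod_cast hm1
  have hm2r : 2 / τ ≤ (m : ℝ) := hM2.trans (by exact_mod_cast hm2)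
  have hm3r : (16 * (ρ + 6) / ε) ^ 2 ≤ (m : ℝ) := hM3.trans (by exact_mod_cast hm3)
  have hmean := hM0 m hm0
  set r := m / Z with hr
  set R := ⌊ρ * (m : ℝ)⌋₊ with hR'
  set m' := m + 2 * r with hm'
  set b' := R + 2 * r with hb'
  have hmcast : ((m' : ℕ) : ℝ) = m + 2 * r := by rw [hm']; push_cast; ring
  have hbcast : ((b' : ℕ) : ℝ) = R + 2 * r := by rw [hb']; push_cast; ring
  have hRle : (R : ℝ) ≤ ρ * m := Nat.floor_le (by positivity)
  have hRge : ρ * (m : ℝ) < R + 1 := Nat.lt_floor_add_one _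
  have hmR : m ≤ R := Nat.le_floor (by nlinarith)
  have hmRr : (m : ℝ) ≤ R := by exact_mod_cast hmR
  have hr0 : (0 : ℝ) ≤ r := Nat.cast_nonneg _
  have hrZ : (r : ℝ) * Z ≤ m := by exact_mod_cast Nat.div_mul_le_self m Z
  have hρr : 0 ≤ (ρ - 1) * r := mul_nonneg (by linarith) hr0
  refine ⟨m', b', by omega, ?_, ?_, ?_⟩
  · -- flat
    rw [hP.flat_iff _ _ (Nat.cast_nonneg _) (Nat.cast_nonneg _), hmcast, hbcast]
    constructor
    · linarith only [hRle, hρr]
    · have : 0 ≤ (ρ - 1) * ((R : ℝ) + 2 * r) := mul_nonneg (by linarith) (by positivity)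
      linarith only [this, hmRr]
  · -- direction
    rw [hmcast, hbcast]
    have hτm : 2 ≤ τ * m := by
      rw [div_le_iff₀ hτ] at hm2r; linarith
    have h2 : 4 * (ρ - 1) ≤ τ * Z := by
      have h3 : 4 * (ρ - 1) / τ ≤ Z := hZ1.trans (by exact_mod_cast hZb)
      rw [div_le_iff₀ hτ] at h3; linarith
    have h3 : 4 * (ρ - 1) * r ≤ τ * Z * r := mul_le_mul_of_nonneg_right h2 hr0
    have h4 : τ * (r * Z) ≤ τ * m := mul_le_mul_of_nonneg_left hrZ hτ.le
    have h5 : 0 ≤ τ * r := mul_nonneg hτ.le hr0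
    nlinarith only [h3, h4, h5, hτm, hRge]
  · -- probability
    set S : ℝ := (m' : ℝ) + b' with hS
    have hSN : N = m' + b' + D := hND
    have hSm' : (0 : ℝ) < m := by linarith
    set q := √(m : ℝ) with hq
    have hq0 : 0 < q := Real.sqrt_pos.mpr hSm'
    have hq2 : q * q = m := Real.mul_self_sqrt hSm'.le
    have hqm : q ≤ √(m' : ℝ) := Real.sqrt_le_sqrt (by rw [hmcast]; linarith)
    have hmean' : al k * S - ε₂ * q ≤ FF k m' b' := hmean
    have hup : FF k (m' + b' + D) (m' + b' + D) ≤ al k * (2 * (S + D)) := by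
      have h2 := hcone.up (m' + b' + D) (m' + b' + D)
      push_cast at h2
      rw [hS]; linarith
    have hαD : al k * D ≤ 1 / 2 * D := mul_le_mul_of_nonneg_right hα1 (Nat.cast_nonneg _)
    have hgap2 : FF k (m' + b' + D) (m' + b' + D) - 2 * FF k m' b' ≤ (ρ + 6) + 2 * ε₂ * q := by
      linarith only [hup, hmean', hαD, hD6]
    have hVN : VarL k N ≤ s ^ 2 * m := by
      have h2 : (N : ℝ) ≤ (2 * ρ + 11) * m := by nlinarith only [hNm, hmr, h1]
      calc VarL k N ≤ s ^ 2 / (2 * ρ + 11) * N := hV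
        _ ≤ s ^ 2 / (2 * ρ + 11) * ((2 * ρ + 11) * m) :=
            mul_le_mul_of_nonneg_left h2 (by positivity)
        _ = s ^ 2 * m := by field_simp
    have hdev : E2 k N N (fun x y => |(L x y : ℝ) - FF k N N|) ≤ s * q := by
      refine (E2_abs_le_var hk0 N (mul_pos hs0 hq0)).trans ?_
      have h2 : VarL k N / (2 * (s * q)) ≤ s ^ 2 * (q * q) / (2 * (s * q)) := by
        rw [hq2]
        exact div_le_div_of_nonneg_right hVN (by positivity)
      have h3 : s ^ 2 * (q * q) / (2 * (s * q)) = s * q / 2 := by field_simp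
      linarith
    have htwo := two_box hk0 m' b' D
    rw [← hSN] at htwo hgap2
    have hE : E2 k m' b' (fun x y => |(L x y : ℝ) - FF k m' b'|) ≤
        s * q + 2 * ((ρ + 6) + 2 * ε₂ * q) := by
      linarith only [htwo, hdev, hgap2]
    have hqbig : 16 * (ρ + 6) ≤ ε * q := by
      have h2 : 16 * (ρ + 6) / ε ≤ q := Real.le_sqrt_of_sq_le hm3r
      rw [div_le_iff₀ hε] at h2; linarith
    calc (Ex k m' fun x => Ex k b' fun y =>
        ind ((L x y : ℝ) ≤ al k * ((m' : ℝ) + b') - 1 * √(m' : ℝ)))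
        ≤ E2 k m' b' (fun x y => (2 / q) * |(L x y : ℝ) - FF k m' b'|) := by
          apply E2_mono
          intro x y _ _
          apply ind_le_of_imp (by positivity)
          intro h
          have h2 : q / 2 ≤ |(L x y : ℝ) - FF k m' b'| := by
            have h3 := neg_le_abs ((L x y : ℝ) - FF k m' b')
            have h4 : ε₂ * q ≤ 1 / 2 * q := mul_le_mul_of_nonneg_right hε₂1 hq0.le
            linarith only [h, h3, h4, hqm, hmean']
          rw [div_mul_eq_mul_div, le_div_iff₀ hq0]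
          linarith
      _ = (2 / q) * E2 k m' b' (fun x y => |(L x y : ℝ) - FF k m' b'|) := E2_const_mul _ _ _ _
      _ ≤ (2 / q) * (s * q + 2 * ((ρ + 6) + 2 * ε₂ * q)) :=
          mul_le_mul_of_nonneg_left hE (by positivity)
      _ ≤ ε := by
          rw [div_mul_eq_mul_div, div_le_iff₀ hq0]
          have h4 : ε₂ * q ≤ ε / 32 * q := mul_le_mul_of_nonneg_right hε₂2 hq0.le
          rw [hs]
          have h5 : 0 ≤ ε * q := by positivity
          linarith only [h4, hqbig, h5]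

/-- block **BASE** -/
theorem stmt_BASE (hPHI : Stmt_PHI) (hDEF : Stmt_DEF) : Stmt_BASE := by
  intro k hk hR
  obtain ⟨C, hC, hD⟩ := hDEF k hk
  have hP := hPHI k hk
  rcases hP.rho_one.eq_or_lt with h | h
  · exact ⟨C * √2 + 1, by positivity, base_rho_one hk hP hC hD hR h.symm⟩
  · exact ⟨1, one_pos, base_rho_gt hk hP hC hD hR h⟩

end Pool.Agent.LCSB85
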