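import Pool.Agent.Work.MP_bec1e1_BASE_h85.Chain

/-!
# BASE: the deficit just inside a flat ray is `o(√m)` (averaging over strips)
-/

set_option autoImplicit false

open scoped BigOperators

namespace Pool.Agent.LCSB85

open Pool.Agent.LCSE

variable {k : ℕ}

/-- the mean is flat in the cone `[1/ρ, ρ]` up to `C √(a+b)`, and smaller by a linear amount
outside -/
structure Cone (k : ℕ) (α ρ C : ℝ) : Prop where
  hk : 0 < k
  hα0 : 0 ≤ α
  hα1 : α ≤ 1
  hC : 0 ≤ C
  hρ : 1 < ρ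
  up : ∀ a b : ℕ, FF k a b ≤ α * (a + b)
  flat : ∀ a b : ℕ, (b : ℝ) ≤ ρ * a → (a : ℝ) ≤ ρ * b → α * (a + b) - C * √(a + b) ≤ FF k a b
  gap : ∀ κ : ℝ, 0 < κ → ∃ c : ℝ, 0 < c ∧ ∀ a b : ℕ, (ρ + κ) * a ≤ b →
    FF k a b ≤ (α - c) * (a + b)

lemma FF_nonneg (a b : ℕ) : 0 ≤ FF k a b :=
  Ex_nonneg fun _ _ => Ex_nonneg fun _ _ => Nat.cast_nonneg _

lemma Cone.near {α ρ C : ℝ} (h : Cone k α ρ C) : ∃ (q : ℕ) (C₁ : ℝ), 2 ≤ q ∧ 0 ≤ C₁ ∧
    ∀ r g : ℕ, 1 ≤ r → g ≤ r + (r / q + 1) → r ≤ g + (r / q + 1) →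
      α * (r + g) - FF k r g ≤ C₁ * √r := by
  have hρ := h.hρ
  set θ := (ρ - 1) / ρ with hθ
  have hρ0 : 0 < ρ := by linarith
  have hθ0 : 0 < θ := div_pos (by linarith) hρ0
  have hθ1 : 1 + θ ≤ ρ := by
    have : θ ≤ ρ - 1 := div_le_self (by linarith) hρ.le
    linarith
  have hθ2 : ρ * (1 - θ) = 1 := by rw [hθ]; field_simp; ring
  obtain ⟨q0, hq0⟩ := exists_nat_ge (2 / θ)
  set q := max q0 2 with hq
  have hq2 : 2 ≤ q := le_max_right _ _
  have hqθ : 2 / θ ≤ (q : ℝ) := hq0.trans (by exact_mod_cast le_max_left _ _)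
  have hq' : (0 : ℝ) < q := by exact_mod_cast (by omega : 0 < q)
  refine ⟨q, 2 * C + 4 * √q, hq2, ?_, ?_⟩
  · have := h.hC
    positivity
  intro r g hr hg1 hg2
  have hr0 : (0 : ℝ) < r := by exact_mod_cast hr
  have hrq : r / q ≤ r := Nat.div_le_self r q
  have hrg : r + g ≤ 4 * r := by
    have : r / q < r := Nat.div_lt_self hr (by omega)
    omega
  have hrg' : (r : ℝ) + g ≤ 4 * r := by exact_mod_cast hrg
  have h4 : √(4 * (r : ℝ)) = 2 * √r := by
    rw [Real.sqrt_mul (by norm_num : (0 : ℝ) ≤ 4), show (4 : ℝ) = 2 ^ 2 by norm_num,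
      Real.sqrt_sq (by norm_num)]
  rcases Nat.lt_or_ge r q with hrq' | hrq'
  · -- small
    have h1 : α * ((r : ℝ) + g) ≤ 1 * (4 * r) :=
      mul_le_mul h.hα1 hrg' (by positivity) zero_le_one
    have h2 : (r : ℝ) = √r * √r := (Real.mul_self_sqrt hr0.le).symm
    have h3 : √(r : ℝ) ≤ √(q : ℝ) := Real.sqrt_le_sqrt (by exact_mod_cast hrq'.le)
    have h5 : 0 ≤ FF k r g := FF_nonneg r g
    have h6 : √(r : ℝ) * √(r : ℝ) ≤ √(q : ℝ) * √(r : ℝ) :=
      mul_le_mul_of_nonneg_right h3 (Real.sqrt_nonneg _)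
    have h7 : 0 ≤ C * √(r : ℝ) := mul_nonneg h.hC (Real.sqrt_nonneg _)
    nlinarith
  · have h1 : ((r / q : ℕ) : ℝ) ≤ r / q := Nat.cast_div_le
    have hrq'' : (q : ℝ) ≤ r := by exact_mod_cast hrq'
    have h2 : (r : ℝ) / q + 1 ≤ θ * r := by
      have h3 : (1 : ℝ) ≤ r / q := by rw [le_div_iff₀ hq']; linarith
      have h4 : 2 * ((r : ℝ) / q) ≤ θ * r := by
        rw [div_le_iff₀ hθ0] at hqθ
        rw [← mul_div_assoc, div_le_iff₀ hq']
        nlinarith
      linarith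
    have hg1' : (g : ℝ) ≤ r + ((r / q : ℕ) + 1) := by exact_mod_cast hg1
    have hg2' : (r : ℝ) ≤ g + ((r / q : ℕ) + 1) := by exact_mod_cast hg2
    have h5 : (g : ℝ) ≤ ρ * r := by nlinarith
    have h6 : (r : ℝ) ≤ ρ * g := by
      have h7 : (1 - θ) * r ≤ g := by nlinarith
      have h8 : ρ * ((1 - θ) * r) ≤ ρ * g := mul_le_mul_of_nonneg_left h7 hρ0.le
      have h9 : ρ * ((1 - θ) * r) = r := by rw [← mul_assoc, hθ2, one_mul]
      linarith
    have h7 := h.flat r g h5 h6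
    have h8 : √((r : ℝ) + g) ≤ 2 * √r := by
      rw [← h4]; exact Real.sqrt_le_sqrt hrg'
    have h9 : C * √((r : ℝ) + g) ≤ C * (2 * √r) := mul_le_mul_of_nonneg_left h8 h.hC
    have h10 : 0 ≤ √(q : ℝ) * √(r : ℝ) := by positivity
    nlinarith

lemma D1.take_drop {A : Type*} {x x' : List A} (h : D1 x x') (g c : ℕ) :
    D1 ((x.drop g).take c) ((x'.drop g).take c) := (h.drop g).take c

lemma Lp2_BoxL (H R r i : ℕ) : Lp2 1 (BoxL (k := k) H R r i) :=
  Lp2.of_L.comp (p := fun x => (x.drop (i * H)).take (H + 2 * r))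
    (q := fun y => (y.drop (i * R)).take (R + 2 * r)) (fun _ _ h => h.take_drop _ _)
    (fun _ _ h => h.take_drop _ _)

lemma Lp2_Dl (α : ℝ) (H R r K i : ℕ) : Lp2 1 (Dl (k := k) α H R r K i) :=
  (Lp2_DD α r K).comp (p := fun x => (x.drop (i * H)).take r)
    (q := fun y => (y.drop (i * R)).take (2 * r)) (fun _ _ h => h.take_drop _ _)
    (fun _ _ h => h.take_drop _ _)

lemma Lp2_Dr (α : ℝ) (H R r K i : ℕ) : Lp2 1 (Dr (k := k) α H R r K i) :=
  (Lp2_DD α r K).comp (p := fun x => ((x.drop ((i + 1) * H + r)).take r).reverse)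
    (q := fun y => ((y.drop ((i + 1) * R)).take (2 * r)).reverse)
    (fun _ _ h => (h.take_drop _ _).reverse) (fun _ _ h => (h.take_drop _ _).reverse)

lemma Lp2_SS (α : ℝ) (J H R r K : ℕ) : Lp2 (3 * (J + 1)) (SS (k := k) α J H R r K) := by
  have h := Lp2.sum (α := Fin k) (Finset.range (J + 1)) (c := fun _ => 3)
    (f := fun i X Y => BoxL H R r i X Y - 4 * α * r + Dl α H R r K i X Y + Dr α H R r K i X Y)
    (fun i _ => by
      have h1 := (((Lp2_BoxL (k := k) H R r i).add_const (-(4 * α * r))).add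
        (Lp2_Dl α H R r K i)).add (Lp2_Dr α H R r K i)
      have h2 : (1 : ℝ) + 1 + 1 = 3 := by norm_num
      rw [h2] at h1
      simpa [sub_eq_add_neg] using h1)
  simp only [Finset.sum_const, Finset.card_range, nsmul_eq_mul] at h
  have h3 : ((J + 1 : ℕ) : ℝ) * 3 = 3 * (J + 1) := by push_cast; ring
  rw [h3] at h
  exact h

lemma Lp2_UU (J H R r w i l : ℕ) : Lp2 2 (UU (k := k) J H R r w i l) := by
  have h1 : Lp2 1 (fun X Y : List (Fin k) => (L ((X.drop r).take (i * H))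
      ((Y.drop r).take (min ((l + 1) * w) ((J + 1) * R))) : ℝ)) :=
    Lp2.of_L.comp (p := fun x => (x.drop r).take (i * H))
      (q := fun y => (y.drop r).take (min ((l + 1) * w) ((J + 1) * R)))
      (fun _ _ h => h.take_drop _ _) (fun _ _ h => h.take_drop _ _)
  have h2 : Lp2 1 (fun X Y : List (Fin k) => (L ((X.drop (r + i * H)).take ((J + 1 - i) * H))
      ((Y.drop (r + l * w)).take ((J + 1) * R - l * w)) : ℝ)) :=
    Lp2.of_L.comp (p := fun x => (x.drop (r + i * H)).take ((J + 1 - i) * H))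
      (q := fun y => (y.drop (r + l * w)).take ((J + 1) * R - l * w))
      (fun _ _ h => h.take_drop _ _) (fun _ _ h => h.take_drop _ _)
  have h3 := h1.add h2
  have h4 : (1 : ℝ) + 1 = 2 := by norm_num
  rw [h4] at h3
  exact h3

/-- mean of the corner maximum -/
noncomputable def mD (k : ℕ) (α : ℝ) (r K : ℕ) : ℝ := E2 k r (2 * r) (DD α r K)

lemma mean_SS (hk : 0 < k) (α : ℝ) (J H R r K : ℕ) :
    E2 k ((J + 1) * H + 2 * r) ((J + 1) * R + 2 * r) (SS α J H R r K) =
      (J + 1) * (FF k (H + 2 * r) (R + 2 * r) - 4 * α * r + 2 * mD k α r K) := by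
  unfold SS
  rw [E2_sum]
  have h : ∀ i ∈ Finset.range (J + 1), E2 k ((J + 1) * H + 2 * r) ((J + 1) * R + 2 * r)
      (fun X Y => BoxL H R r i X Y - 4 * α * r + Dl α H R r K i X Y + Dr α H R r K i X Y) =
      FF k (H + 2 * r) (R + 2 * r) - 4 * α * r + 2 * mD k α r K := by
    intro i hi
    have hi' := Finset.mem_range.mp hi
    have hiH : (i + 1) * H ≤ (J + 1) * H := Nat.mul_le_mul_right _ (by omega)
    have hiR : (i + 1) * R ≤ (J + 1) * R := Nat.mul_le_mul_right _ (by omega)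
    have hH1 : (i + 1) * H = i * H + H := by ring
    have hR1 : (i + 1) * R = i * R + R := by ring
    rw [E2_add, E2_add, E2_sub, E2_const hk]
    have h1 : E2 k ((J + 1) * H + 2 * r) ((J + 1) * R + 2 * r) (BoxL H R r i) =
        FF k (H + 2 * r) (R + 2 * r) :=
      E2_win hk (by omega) (by omega) (fun x y => (L x y : ℝ))
    have h2 : E2 k ((J + 1) * H + 2 * r) ((J + 1) * R + 2 * r) (Dl α H R r K i) = mD k α r K :=
      E2_win hk (by omega) (by omega) (DD α r K)
    have h3 : E2 k ((J + 1) * H + 2 * r) ((J + 1) * R + 2 * r) (Dr α H R r K i) = mD k α r K := by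
      have h4 := E2_win (k := k) hk (a := (J + 1) * H + 2 * r) (b := (J + 1) * R + 2 * r)
        (g1 := (i + 1) * H + r) (c1 := r) (g2 := (i + 1) * R) (c2 := 2 * r) (by omega) (by omega)
        (fun x y => DD α r K x.reverse y.reverse)
      refine h4.trans ?_
      unfold mD E2
      have h5 : ∀ x : List (Fin k), Ex k (2 * r) (fun y => DD α r K x.reverse y.reverse) =
          Ex k (2 * r) (fun y => DD α r K x.reverse y) :=
        fun x => Ex_reverse (2 * r) (DD α r K x.reverse)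
      simp only [h5]
      exact Ex_reverse r (fun x => Ex k (2 * r) (DD α r K x))
    rw [h1, h2, h3]
    ring
  rw [Finset.sum_congr rfl h]
  simp
  ring

lemma mean_UU (hk : 0 < k) {J H R r w i l : ℕ} (hi : i ≤ J + 1) (hl : l * w ≤ (J + 1) * R) :
    E2 k ((J + 1) * H + 2 * r) ((J + 1) * R + 2 * r) (UU J H R r w i l) =
      FF k (i * H) (min ((l + 1) * w) ((J + 1) * R)) +
        FF k ((J + 1 - i) * H) ((J + 1) * R - l * w) := by
  have hiH : i * H + (J + 1 - i) * H = (J + 1) * H := by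
    rw [← Nat.add_mul]; congr 1; omega
  have hm : min ((l + 1) * w) ((J + 1) * R) ≤ (J + 1) * R := min_le_right _ _
  unfold UU
  rw [E2_add]
  congr 1
  · exact E2_win hk (by omega) (by omega) (fun x y => (L x y : ℝ))
  · exact E2_win hk (by omega) (by omega) (fun x y => (L x y : ℝ))

lemma mean_core (hk : 0 < k) (J H R r : ℕ) :
    E2 k ((J + 1) * H + 2 * r) ((J + 1) * R + 2 * r) (fun X Y =>
      (L ((X.drop r).take ((J + 1) * H)) ((Y.drop r).take ((J + 1) * R)) : ℝ)) =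
      FF k ((J + 1) * H) ((J + 1) * R) :=
  E2_win hk (by omega) (by omega) (fun x y => (L x y : ℝ))

lemma mD_nonneg {α ρ C : ℝ} (h : Cone k α ρ C) (r K : ℕ) (hK : K ≤ r) : 0 ≤ mD k α r K := by
  unfold mD
  have h1 : E2 k r (2 * r) (fun x y => α * ((r : ℝ) + r) - (L x (y.take r) : ℝ)) ≤
      E2 k r (2 * r) (DD α r K) := by
    apply E2_mono
    intro x y _ _
    exact le_DD α x y (by omega) (by omega) hK
  refine le_trans ?_ h1
  rw [E2_sub, E2_const h.hk]
  have h2 := E2_win (k := k) h.hk (a := r) (b := 2 * r) (g1 := 0) (c1 := r) (g2 := 0) (c2 := r)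
    (by omega) (by omega) (fun x y => (L x y : ℝ))
  have h3 : E2 k r (2 * r) (fun x y => (L x (y.take r) : ℝ)) = FF k r r := by
    refine Eq.trans ?_ h2
    apply E2_congr
    intro x y hx _
    simp [List.take_of_length_le hx.le]
  rw [h3]
  have := h.up r r
  linarith

/-- the far paths do not matter -/
lemma core_le {α ρ C : ℝ} (h : Cone k α ρ C) {J H R r K w NL : ℕ} {μ : ℝ} (hK : K ≤ r)
    (hw : 0 < w) (hμ : 0 < μ) (hNL : (J + 1) * R < NL * w)
    (hfar : ∀ i l c : ℕ, 1 ≤ i → i ≤ J → c ≤ (J + 1) * R → l * w ≤ c → c < (l + 1) * w →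
      (i * R + K < c ∨ c + K < i * R) →
      FF k (i * H) (min ((l + 1) * w) ((J + 1) * R)) +
        FF k ((J + 1 - i) * H) ((J + 1) * R - l * w) -
        (J + 1) * (FF k (H + 2 * r) (R + 2 * r) - 4 * α * r + 2 * mD k α r K) ≤ -μ) :
    FF k ((J + 1) * H) ((J + 1) * R) ≤
      (J + 1) * (FF k (H + 2 * r) (R + 2 * r) - 4 * α * r + 2 * mD k α r K) +
      ((J + 1) * NL : ℕ) * ((3 * (J + 1) + 2) ^ 2 *
        ((((J + 1) * H + 2 * r : ℕ) : ℝ) + (((J + 1) * R + 2 * r : ℕ) : ℝ)) / (4 * μ)) := by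
  classical
  set P := ((Finset.range (J + 1)) ×ˢ (Finset.range NL)).filter (fun p =>
    p.2 * w ≤ (J + 1) * R ∧
    FF k (p.1 * H) (min ((p.2 + 1) * w) ((J + 1) * R)) +
        FF k ((J + 1 - p.1) * H) ((J + 1) * R - p.2 * w) -
        (J + 1) * (FF k (H + 2 * r) (R + 2 * r) - 4 * α * r + 2 * mD k α r K) ≤ -μ) with hP
  have hpt : ∀ X Y : List (Fin k), X.length = (J + 1) * H + 2 * r →
      Y.length = (J + 1) * R + 2 * r →
      (L ((X.drop r).take ((J + 1) * H)) ((Y.drop r).take ((J + 1) * R)) : ℝ) ≤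
      SS α J H R r K X Y + ∑ p ∈ P, max (UU J H R r w p.1 p.2 X Y + -SS α J H R r K X Y) 0 := by
    intro X Y hX hY
    have hnn : 0 ≤ ∑ p ∈ P, max (UU J H R r w p.1 p.2 X Y + -SS α J H R r K X Y) 0 :=
      Finset.sum_nonneg fun p _ => le_max_right _ _
    rcases pointwise α X Y hK hw hX hY with h1 | ⟨i, l, c, hi1, hi2, hc, hl1, hl2, hbad, h1⟩
    · linarith
    · have hmem : (i, l) ∈ P := by
        rw [hP, Finset.mem_filter, Finset.mem_product, Finset.mem_range, Finset.mem_range]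
        refine ⟨⟨by omega, ?_⟩, hl1.trans hc, hfar i l c hi1 hi2 hc hl1 hl2 hbad⟩
        by_contra hcon
        push_neg at hcon
        have : NL * w ≤ l * w := Nat.mul_le_mul_right _ hcon
        omega
      have h2 := Finset.single_le_sum (f := fun p : ℕ × ℕ =>
        max (UU J H R r w p.1 p.2 X Y + -SS α J H R r K X Y) 0)
        (fun p _ => le_max_right _ _) hmem
      have h3 := le_max_left (UU J H R r w i l X Y + -SS α J H R r K X Y) 0
      simp only at h2
      linarith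
  rw [← mean_core h.hk J H R r, ← mean_SS h.hk]
  refine (E2_mono hpt).trans ?_
  rw [E2_add, E2_sum]
  apply add_le_add_right
  have hterm : ∀ p ∈ P, E2 k ((J + 1) * H + 2 * r) ((J + 1) * R + 2 * r) (fun X Y =>
      max (UU J H R r w p.1 p.2 X Y + -SS α J H R r K X Y) 0) ≤
      (3 * (J + 1) + 2) ^ 2 *
        ((((J + 1) * H + 2 * r : ℕ) : ℝ) + (((J + 1) * R + 2 * r : ℕ) : ℝ)) / (4 * μ) := by
    intro p hp
    rw [hP, Finset.mem_filter, Finset.mem_product, Finset.mem_range, Finset.mem_range] at hp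
    have h1 := E2_pos_part (k := k) h.hk hμ ((J + 1) * H + 2 * r) ((J + 1) * R + 2 * r)
      ((Lp2_UU (k := k) J H R r w p.1 p.2).add (Lp2_SS α J H R r K).neg) (by
        rw [E2_add, mean_UU h.hk (by omega) hp.2.1]
        have h2 : E2 k ((J + 1) * H + 2 * r) ((J + 1) * R + 2 * r)
            (fun x y => -SS α J H R r K x y) =
            -((J + 1) * (FF k (H + 2 * r) (R + 2 * r) - 4 * α * r + 2 * mD k α r K)) := by
          rw [← mean_SS h.hk]
          unfold E2
          simp only [Ex_neg]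
        rw [h2]
        have := hp.2.2
        linarith)
    refine h1.trans (le_of_eq ?_)
    ring
  refine (Finset.sum_le_sum hterm).trans ?_
  rw [Finset.sum_const, nsmul_eq_mul]
  apply mul_le_mul_of_nonneg_right _ (by positivity)
  have hcard : P.card ≤ (J + 1) * NL := by
    refine (Finset.card_filter_le _ _).trans ?_
    rw [Finset.card_product, Finset.card_range, Finset.card_range]
  exact_mod_cast hcard

end Pool.Agent.LCSB85
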