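import Pool.Agent.Work.MP_bec1e1_BASE_h85.Inf

/-!
# BASE: strips, boxes and the pointwise inequality
-/

set_option autoImplicit false

open scoped BigOperators

namespace Pool.Agent.LCSB85

open Pool.Agent.LCSE

section
variable {A : Type*}

lemma L_reverse (x y : List A) : L x.reverse y.reverse = L x y := by
  have key : ∀ x y : List A, L x y ≤ L x.reverse y.reverse := by
    intro x y
    apply L_le
    intro l h1 h2
    have := le_L h1.reverse h2.reverse
    simpa using this
  apply le_antisymm _ (key x y)
  have := key x.reverse y.reverse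
  simpa using this

/-- the optimal path through strips of height `H` -/
lemma chain (H : ℕ) : ∀ (j : ℕ) (x y : List A), x.length = (j + 1) * H → ∃ c : ℕ → ℕ,
    c 0 = 0 ∧ c (j + 1) = y.length ∧ (∀ i ≤ j, c i ≤ c (i + 1)) ∧
    L x y ≤ ∑ i ∈ Finset.range (j + 1),
      L ((x.drop (i * H)).take H) ((y.drop (c i)).take (c (i + 1) - c i)) ∧
    ∀ i ≤ j + 1, L x y ≤ L (x.take (i * H)) (y.take (c i)) + L (x.drop (i * H)) (y.drop (c i)) := by
  intro j
  induction j with
  | zero =>
    intro x y hx
    refine ⟨fun i => if i = 0 then 0 else y.length, by simp, by simp, by simp, ?_, ?_⟩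
    · simp only [zero_add, Finset.range_one, Finset.sum_singleton]
      simp [List.take_of_length_le (show x.length ≤ H by omega)]
    · intro i hi
      rcases Nat.le_one_iff_eq_zero_or_eq_one.mp (by simpa using hi) with rfl | rfl
      · simp
      · simp [List.take_of_length_le (show x.length ≤ H by omega)]
  | succ j ih =>
    intro x y hx
    obtain ⟨g, hg, hsplit⟩ := L_append_split (x.take H) (x.drop H) y
    rw [List.take_append_drop] at hsplit
    have hxl : (x.drop H).length = (j + 1) * H := by
      rw [List.length_drop, hx]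
      have : (j + 1 + 1) * H = (j + 1) * H + H := by ring
      omega
    obtain ⟨c', h0, h1, h2, h3, h4⟩ := ih (x.drop H) (y.drop g) hxl
    rw [List.length_drop] at h1
    refine ⟨fun i => Nat.casesOn i 0 (fun i => g + c' i), rfl, ?_, ?_, ?_, ?_⟩
    · show g + c' (j + 1) = y.length
      omega
    · intro i hi
      cases i with
      | zero => exact Nat.zero_le _
      | succ i =>
        show g + c' i ≤ g + c' (i + 1)
        have := h2 i (by omega)
        omega
    · rw [Finset.sum_range_succ', hsplit, add_comm]
      apply add_le_add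
      · refine h3.trans (le_of_eq ?_)
        apply Finset.sum_congr rfl
        intro i _
        show L (((x.drop H).drop (i * H)).take H) (((y.drop g).drop (c' i)).take (c' (i + 1) - c' i)) =
          L ((x.drop ((i + 1) * H)).take H) ((y.drop (g + c' i)).take (g + c' (i + 1) - (g + c' i)))
        rw [List.drop_drop, List.drop_drop, show H + i * H = (i + 1) * H by ring,
          Nat.add_sub_add_left]
      · show L (x.take H) (y.take g) ≤ L ((x.drop (0 * H)).take H) ((y.drop 0).take (g + c' 0 - 0))
        simp [h0]
    · intro i hi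
      cases i with
      | zero => simp
      | succ i =>
        show L x y ≤ L (x.take ((i + 1) * H)) (y.take (g + c' i)) +
          L (x.drop ((i + 1) * H)) (y.drop (g + c' i))
        have h5 := h4 i (by omega)
        have h6 : x.take ((i + 1) * H) = x.take H ++ (x.drop H).take (i * H) := by
          rw [show (i + 1) * H = H + i * H by ring]
          exact List.take_add
        have h7 : y.take (g + c' i) = y.take g ++ (y.drop g).take (c' i) := List.take_add
        rw [h6, h7, hsplit, show (i + 1) * H = H + i * H by ring, ← List.drop_drop,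
          ← List.drop_drop]
        have h8 := L_append_ge (x.take H) ((x.drop H).take (i * H)) (y.take g)
          ((y.drop g).take (c' i))
        omega

end

variable {k : ℕ}

/-- the LCS of box `i` -/
noncomputable def BoxL (H R r i : ℕ) (X Y : List (Fin k)) : ℝ :=
  (L ((X.drop (i * H)).take (H + 2 * r)) ((Y.drop (i * R)).take (R + 2 * r)) : ℝ)

/-- window maximum at the lower left corner of box `i` -/
noncomputable def Dl (α : ℝ) (H R r K i : ℕ) (X Y : List (Fin k)) : ℝ :=
  DD α r K ((X.drop (i * H)).take r) ((Y.drop (i * R)).take (2 * r))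

/-- window maximum at the upper right corner of box `i` -/
noncomputable def Dr (α : ℝ) (H R r K i : ℕ) (X Y : List (Fin k)) : ℝ :=
  DD α r K ((X.drop ((i + 1) * H + r)).take r).reverse ((Y.drop ((i + 1) * R)).take (2 * r)).reverse

lemma conf_step (α : ℝ) {H R r K i c c' : ℕ} (X Y : List (Fin k)) (hK : K ≤ r)
    (hc1 : i * R ≤ c + K) (hc2 : c ≤ i * R + K) (hcc : c ≤ c')
    (hc3 : (i + 1) * R ≤ c' + K) (hc4 : c' ≤ (i + 1) * R + K)
    (hY : (i + 1) * R + 2 * r ≤ Y.length) :
    (L ((X.drop (r + i * H)).take H) ((Y.drop (r + c)).take (c' - c)) : ℝ) ≤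
      BoxL H R r i X Y - 4 * α * r + Dl α H R r K i X Y + Dr α H R r K i X Y +
        α * (((c' : ℝ) - ((i + 1 : ℕ) : ℝ) * R) - ((c : ℝ) - (i : ℝ) * R)) := by
  have hR1 : (i + 1) * R = i * R + R := by ring
  have hH1 : (i + 1) * H = i * H + H := by ring
  set s := r + c - i * R with hs
  set s' := (i + 1) * R + r - c' with hs'
  have e1 : i * R + s = r + c := by omega
  have e2 : s + ((c' - c) + s') = R + 2 * r := by omega
  have e3 : r + c + (c' - c) = r + c' := by omega
  -- decomposition of the box
  have hYdec : (Y.drop (i * R)).take (R + 2 * r) =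
      (Y.drop (i * R)).take s ++ ((Y.drop (r + c)).take (c' - c) ++ (Y.drop (r + c')).take s') := by
    rw [← e2, List.take_add, List.drop_drop, e1, List.take_add, List.drop_drop, e3]
  have hXdec : (X.drop (i * H)).take (H + 2 * r) =
      (X.drop (i * H)).take r ++ ((X.drop (r + i * H)).take H ++
        (X.drop ((i + 1) * H + r)).take r) := by
    rw [show H + 2 * r = r + (H + r) by ring, List.take_add, List.drop_drop,
      show i * H + r = r + i * H by ring, List.take_add, List.drop_drop,
      show r + i * H + H = (i + 1) * H + r by rw [hH1]; ring]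
  have hbox : (L ((X.drop (i * H)).take r) ((Y.drop (i * R)).take s) : ℝ) +
      ((L ((X.drop (r + i * H)).take H) ((Y.drop (r + c)).take (c' - c)) : ℝ) +
        (L ((X.drop ((i + 1) * H + r)).take r) ((Y.drop (r + c')).take s') : ℝ)) ≤
      BoxL H R r i X Y := by
    unfold BoxL
    rw [hXdec, hYdec]
    exact_mod_cast (Nat.add_le_add_left (L_append_ge _ _ _ _) _).trans (L_append_ge _ _ _ _)
  -- left corner
  have hl : α * ((r : ℝ) + s) - (L ((X.drop (i * H)).take r) ((Y.drop (i * R)).take s) : ℝ) ≤
      Dl α H R r K i X Y := by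
    have h := le_DD α ((X.drop (i * H)).take r) ((Y.drop (i * R)).take (2 * r))
      (r := r) (K := K) (s := s) (by omega) (by omega) hK
    rw [List.take_take, min_eq_left (by omega)] at h
    exact h
  -- right corner
  have hr : α * ((r : ℝ) + s') - (L ((X.drop ((i + 1) * H + r)).take r)
      ((Y.drop (r + c')).take s') : ℝ) ≤ Dr α H R r K i X Y := by
    have h := le_DD α ((X.drop ((i + 1) * H + r)).take r).reverse
      ((Y.drop ((i + 1) * R)).take (2 * r)).reverse (r := r) (K := K) (s := s')
      (by omega) (by omega) hK
    have h1 : ((Y.drop ((i + 1) * R)).take (2 * r)).reverse.take s' =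
        ((Y.drop (r + c')).take s').reverse := by
      rw [List.take_reverse]
      congr 1
      have h2 : ((Y.drop ((i + 1) * R)).take (2 * r)).length = 2 * r := by
        rw [List.length_take, List.length_drop]; omega
      rw [h2, List.drop_take, List.drop_drop]
      congr 1
      · omega
      · congr 1
        omega
    rw [h1, L_reverse] at h
    exact h
  have hs1 : (s : ℝ) = (r : ℝ) + c - i * R := by
    rw [hs, Nat.cast_sub (by omega)]; push_cast; ring
  have hs2 : (s' : ℝ) = ((i + 1 : ℕ) : ℝ) * R + r - c' := by
    rw [hs', Nat.cast_sub (by omega)]; push_cast; ring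
  rw [hs1] at hl
  rw [hs2] at hr
  have : α * ((r : ℝ) + ((r : ℝ) + c - i * R)) + α * ((r : ℝ) + (((i + 1 : ℕ) : ℝ) * R + r - c')) =
      4 * α * r - α * (((c' : ℝ) - ((i + 1 : ℕ) : ℝ) * R) - ((c : ℝ) - (i : ℝ) * R)) := by
    ring
  linarith

/-- the bound for confined paths -/
noncomputable def SS (α : ℝ) (J H R r K : ℕ) (X Y : List (Fin k)) : ℝ :=
  ∑ i ∈ Finset.range (J + 1), (BoxL H R r i X Y - 4 * α * r + Dl α H R r K i X Y + Dr α H R r K i X Y)

/-- the value of a path which passes row `i * H` of the core between the columns `l * w` and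
`(l + 1) * w` -/
noncomputable def UU (J H R r w i l : ℕ) (X Y : List (Fin k)) : ℝ :=
  (L ((X.drop r).take (i * H)) ((Y.drop r).take (min ((l + 1) * w) ((J + 1) * R))) : ℝ) +
  (L ((X.drop (r + i * H)).take ((J + 1 - i) * H))
    ((Y.drop (r + l * w)).take ((J + 1) * R - l * w)) : ℝ)

/-- either the path is confined, or it is one of the far paths -/
lemma pointwise (α : ℝ) {J H R r K w : ℕ} (X Y : List (Fin k)) (hK : K ≤ r) (hw : 0 < w)
    (hX : X.length = (J + 1) * H + 2 * r) (hY : Y.length = (J + 1) * R + 2 * r) :
    (L ((X.drop r).take ((J + 1) * H)) ((Y.drop r).take ((J + 1) * R)) : ℝ) ≤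
      SS α J H R r K X Y ∨
    ∃ i l c : ℕ, 1 ≤ i ∧ i ≤ J ∧ c ≤ (J + 1) * R ∧ l * w ≤ c ∧ c < (l + 1) * w ∧
      (i * R + K < c ∨ c + K < i * R) ∧
      (L ((X.drop r).take ((J + 1) * H)) ((Y.drop r).take ((J + 1) * R)) : ℝ) ≤
        UU J H R r w i l X Y := by
  set x := (X.drop r).take ((J + 1) * H) with hx
  set y := (Y.drop r).take ((J + 1) * R) with hy
  have hxl : x.length = (J + 1) * H := by
    rw [hx, List.length_take, List.length_drop]; omega
  have hyl : y.length = (J + 1) * R := by
    rw [hy, List.length_take, List.length_drop]; omega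
  obtain ⟨c, h0, h1, h2, h3, h4⟩ := chain H J x y hxl
  rw [hyl] at h1
  have hmono : ∀ i ≤ J + 1, c i ≤ (J + 1) * R := by
    intro i hi
    obtain ⟨d, hd⟩ := Nat.exists_eq_add_of_le hi
    clear hi
    induction d generalizing i with
    | zero =>
      have : i = J + 1 := by omega
      rw [this, h1]
    | succ d ih => exact (h2 i (by omega)).trans (ih (i + 1) (by omega))
  by_cases hconf : ∀ i ≤ J + 1, i * R ≤ c i + K ∧ c i ≤ i * R + K
  · left
    have h5 : (L x y : ℝ) ≤ ∑ i ∈ Finset.range (J + 1),
        (L ((x.drop (i * H)).take H) ((y.drop (c i)).take (c (i + 1) - c i)) : ℝ) := by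
      exact_mod_cast h3
    refine h5.trans ?_
    have h6 : ∀ i ∈ Finset.range (J + 1),
        (L ((x.drop (i * H)).take H) ((y.drop (c i)).take (c (i + 1) - c i)) : ℝ) ≤
        (BoxL H R r i X Y - 4 * α * r + Dl α H R r K i X Y + Dr α H R r K i X Y) +
        (α * (((c (i + 1) : ℕ) : ℝ) - ((i + 1 : ℕ) : ℝ) * R) - α * ((c i : ℝ) - (i : ℝ) * R)) := by
      intro i hi
      have hi' := Finset.mem_range.mp hi
      have e1 : (x.drop (i * H)).take H = (X.drop (r + i * H)).take H := by
        rw [hx, List.drop_take, List.drop_drop, List.take_take]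
        congr 1
        apply min_eq_left
        have : (J + 1) * H = i * H + (J + 1 - i) * H := by
          rw [← Nat.add_mul]; congr 1; omega
        have h7 : H ≤ (J + 1 - i) * H := Nat.le_mul_of_pos_left _ (by omega)
        omega
      have e2 : (y.drop (c i)).take (c (i + 1) - c i) =
          (Y.drop (r + c i)).take (c (i + 1) - c i) := by
        rw [hy, List.drop_take, List.drop_drop, List.take_take]
        congr 1
        apply min_eq_left
        have := hmono (i + 1) (by omega)
        omega
      rw [e1, e2]
      have h8 := conf_step α (H := H) (R := R) (r := r) (K := K) (i := i) (c := c i)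
        (c' := c (i + 1)) X Y hK (hconf i (by omega)).1 (hconf i (by omega)).2 (h2 i (by omega))
        (hconf (i + 1) (by omega)).1 (hconf (i + 1) (by omega)).2 (by
          rw [hY]
          have : (i + 1) * R ≤ (J + 1) * R := Nat.mul_le_mul_right _ (by omega)
          omega)
      refine h8.trans (le_of_eq ?_)
      ring
    refine (Finset.sum_le_sum h6).trans ?_
    rw [Finset.sum_add_distrib, Finset.sum_range_sub (fun i : ℕ => α * ((c i : ℝ) - (i : ℝ) * R)),
      h0, h1]
    unfold SS
    apply le_of_eq
    push_cast
    ring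
  · right
    push_neg at hconf
    obtain ⟨i, hi, hi2⟩ := hconf
    have hbad : i * R + K < c i ∨ c i + K < i * R := by
      rcases Nat.lt_or_ge (c i + K) (i * R) with h | h
      · right; exact h
      · left; exact hi2 h
    have hi0 : i ≠ 0 := by
      rintro rfl
      rw [h0] at hbad
      simp at hbad
    have hiJ : i ≠ J + 1 := by
      rintro rfl
      rw [h1] at hbad
      omega
    have hl1 : c i / w * w ≤ c i := Nat.div_mul_le_self _ _
    have hl2 : c i < (c i / w + 1) * w := by
      have := Nat.lt_div_mul_add hw (a := c i)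
      rw [Nat.add_mul, one_mul]
      exact this
    refine ⟨i, c i / w, c i, by omega, by omega, hmono i hi, hl1, hl2, hbad, ?_⟩
    have h5 : (L x y : ℝ) ≤ (L (x.take (i * H)) (y.take (c i)) : ℝ) +
        (L (x.drop (i * H)) (y.drop (c i)) : ℝ) := by exact_mod_cast h4 i hi
    refine h5.trans ?_
    unfold UU
    apply add_le_add
    · have e1 : x.take (i * H) = (X.drop r).take (i * H) := by
        rw [hx, List.take_take]
        congr 1
        exact min_eq_left (Nat.mul_le_mul_right _ (by omega))
      have e2 : y.take (c i) = (Y.drop r).take (c i) := by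
        rw [hy, List.take_take]
        congr 1
        exact min_eq_left (hmono i hi)
      rw [e1, e2]
      have h6 : ((Y.drop r).take (c i)).Sublist
          ((Y.drop r).take (min ((c i / w + 1) * w) ((J + 1) * R))) := by
        have h7 : c i ≤ min ((c i / w + 1) * w) ((J + 1) * R) := le_min hl2.le (hmono i hi)
        have h8 : (Y.drop r).take (c i) =
            ((Y.drop r).take (min ((c i / w + 1) * w) ((J + 1) * R))).take (c i) := by
          rw [List.take_take, min_eq_left h7]
        rw [h8]
        exact List.take_sublist _ _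
      exact_mod_cast L_mono (List.Sublist.refl _) h6
    · have e1 : x.drop (i * H) = (X.drop (r + i * H)).take ((J + 1 - i) * H) := by
        rw [hx, List.drop_take, List.drop_drop]
        congr 1
        rw [Nat.sub_mul]
      have e2 : y.drop (c i) = (Y.drop (r + c i)).take ((J + 1) * R - c i) := by
        rw [hy, List.drop_take, List.drop_drop]
      rw [e1, e2]
      have h6 : ((Y.drop (r + c i)).take ((J + 1) * R - c i)).Sublist
          ((Y.drop (r + c i / w * w)).take ((J + 1) * R - c i / w * w)) := by
        obtain ⟨d, hd⟩ := Nat.exists_eq_add_of_le hl1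
        have h7 : (Y.drop (r + c i)).take ((J + 1) * R - c i) =
            ((Y.drop (r + c i / w * w)).take ((J + 1) * R - c i / w * w)).drop d := by
          rw [List.drop_take, List.drop_drop]
          congr 1
          · omega
          · congr 1
            omega
        rw [h7]
        exact List.drop_sublist _ _
      exact_mod_cast L_mono (List.Sublist.refl _) h6

end Pool.Agent.LCSB85
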