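import Pool.Agent.Work.MP_bec1e1_E_helper47.Base

/-!
# Generic lemmas for block BASE: one-letter changes, variance of Lipschitz functions, windows
-/

set_option autoImplicit false

open scoped BigOperators

namespace Pool.Agent.LCSB85

open Pool.Agent.LCSE

variable {α : Type*}

/-- the two words differ in (at most) one letter -/
def D1 (x x' : List α) : Prop := x = x' ∨ ∃ (u : List α) (a a' : α) (v : List α),
  x = u ++ a :: v ∧ x' = u ++ a' :: v

lemma D1.refl (x : List α) : D1 x x := Or.inl rfl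

lemma D1.symm {x x' : List α} (h : D1 x x') : D1 x' x := by
  rcases h with rfl | ⟨u, a, a', v, rfl, rfl⟩
  · exact Or.inl rfl
  · exact Or.inr ⟨u, a', a, v, rfl, rfl⟩

lemma D1.length {x x' : List α} (h : D1 x x') : x.length = x'.length := by
  rcases h with rfl | ⟨u, a, a', v, rfl, rfl⟩ <;> simp

lemma D1.take {x x' : List α} (h : D1 x x') (n : ℕ) : D1 (x.take n) (x'.take n) := by
  rcases h with rfl | ⟨u, a, a', v, rfl, rfl⟩
  · exact Or.inl rfl
  · rcases Nat.lt_or_ge u.length n with hn | hn
    · obtain ⟨m, rfl⟩ := Nat.exists_eq_add_of_lt hn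
      refine Or.inr ⟨u, a, a', v.take m, ?_, ?_⟩
      · rw [List.take_append]
        simp [show u.length + m + 1 - u.length = m + 1 by omega,
          List.take_of_length_le (show u.length ≤ u.length + m + 1 by omega)]
      · rw [List.take_append]
        simp [show u.length + m + 1 - u.length = m + 1 by omega,
          List.take_of_length_le (show u.length ≤ u.length + m + 1 by omega)]
    · left
      rw [List.take_append_of_le_length hn, List.take_append_of_le_length hn]

lemma D1.drop {x x' : List α} (h : D1 x x') (n : ℕ) : D1 (x.drop n) (x'.drop n) := by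
  rcases h with rfl | ⟨u, a, a', v, rfl, rfl⟩
  · exact Or.inl rfl
  · rcases Nat.lt_or_ge u.length n with hn | hn
    · left
      rw [List.drop_append, List.drop_append]
      obtain ⟨m, rfl⟩ := Nat.exists_eq_add_of_lt hn
      simp [show u.length + m + 1 - u.length = m + 1 by omega]
    · refine Or.inr ⟨u.drop n, a, a', v, ?_, ?_⟩
      · rw [List.drop_append_of_le_length hn]
      · rw [List.drop_append_of_le_length hn]

lemma D1.reverse {x x' : List α} (h : D1 x x') : D1 x.reverse x'.reverse := by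
  rcases h with rfl | ⟨u, a, a', v, rfl, rfl⟩
  · exact Or.inl rfl
  · exact Or.inr ⟨v.reverse, a, a', u.reverse, by simp, by simp⟩

lemma L_insert_le (u v y : List α) (a : α) : L (u ++ a :: v) y ≤ L (u ++ v) y + 1 := by
  obtain ⟨l, hl, h1, h2⟩ := exists_L (u ++ a :: v) y
  rw [← hl]
  obtain ⟨l1, l2, rfl, h3, h4⟩ := List.sublist_append_iff.mp h1
  rcases List.sublist_cons_iff.mp h4 with h | ⟨r, hr, h⟩
  · exact (le_L (h3.append h) h2).trans (Nat.le_succ _)
  · subst hr
    have h5 : (l1 ++ r).Sublist y :=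
      ((List.Sublist.refl l1).append (List.sublist_cons_self a r)).trans h2
    have := le_L (h3.append h) h5
    simp only [List.length_append, List.length_cons] at this ⊢
    omega

lemma L_D1 {x x' : List α} (h : D1 x x') (y : List α) : L x y ≤ L x' y + 1 := by
  rcases h with rfl | ⟨u, a, a', v, rfl, rfl⟩
  · omega
  · refine (L_insert_le u v y a).trans (Nat.add_le_add_right (L_mono ?_ (List.Sublist.refl _)) 1)
    exact (List.Sublist.refl u).append (List.sublist_cons_self a' v)

/-- Lipschitz functions of one word -/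
def Lp (c : ℝ) (f : List α → ℝ) : Prop := ∀ x x', D1 x x' → f x ≤ f x' + c

/-- Lipschitz functions of two words -/
def Lp2 (c : ℝ) (f : List α → List α → ℝ) : Prop :=
  (∀ y, Lp c (fun x => f x y)) ∧ ∀ x, Lp c (fun y => f x y)

lemma Lp2.of_L : Lp2 1 (fun x y : List α => (L x y : ℝ)) := by
  constructor
  · intro y x x' h
    show (L x y : ℝ) ≤ L x' y + 1
    exact_mod_cast L_D1 h y
  · intro x y y' h
    show (L x y : ℝ) ≤ L x y' + 1
    rw [L_comm x y, L_comm x y']
    exact_mod_cast L_D1 h x

lemma Lp2.add {c d : ℝ} {f g : List α → List α → ℝ} (hf : Lp2 c f) (hg : Lp2 d g) :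
    Lp2 (c + d) (fun x y => f x y + g x y) := by
  constructor
  · intro y x x' h
    have h1 := hf.1 y x x' h
    have h2 := hg.1 y x x' h
    simp only at h1 h2 ⊢
    linarith
  · intro x y y' h
    have h1 := hf.2 x y y' h
    have h2 := hg.2 x y y' h
    simp only at h1 h2 ⊢
    linarith

lemma Lp2.neg {c : ℝ} {f : List α → List α → ℝ} (hf : Lp2 c f) :
    Lp2 c (fun x y => - f x y) := by
  constructor
  · intro y x x' h
    have h1 := hf.1 y x' x h.symm
    simp only at h1 ⊢
    linarith
  · intro x y y' h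
    have h1 := hf.2 x y' y h.symm
    simp only at h1 ⊢
    linarith

lemma Lp2.const (c : ℝ) : Lp2 0 (fun _ _ : List α => c) := by
  constructor <;> intro _ _ _ _ <;> simp

lemma Lp2.add_const {c : ℝ} (d : ℝ) {f : List α → List α → ℝ} (hf : Lp2 c f) :
    Lp2 c (fun x y => f x y + d) := by
  simpa using hf.add (Lp2.const d)

lemma Lp2.const_sub {c : ℝ} (d : ℝ) {f : List α → List α → ℝ} (hf : Lp2 c f) :
    Lp2 c (fun x y => d - f x y) := by
  simpa [sub_eq_add_neg] using (Lp2.const d).add hf.neg

lemma Lp2.mono {c d : ℝ} (h : c ≤ d) {f : List α → List α → ℝ} (hf : Lp2 c f) : Lp2 d f :=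
  ⟨fun y x x' hx => (hf.1 y x x' hx).trans (by linarith),
   fun x y y' hy => (hf.2 x y y' hy).trans (by linarith)⟩

lemma Lp2.sum {ι : Type*} (s : Finset ι) {c : ι → ℝ} {f : ι → List α → List α → ℝ}
    (hf : ∀ i ∈ s, Lp2 (c i) (f i)) :
    Lp2 (∑ i ∈ s, c i) (fun x y => ∑ i ∈ s, f i x y) := by
  constructor
  · intro y x x' h
    show ∑ i ∈ s, f i x y ≤ ∑ i ∈ s, f i x' y + ∑ i ∈ s, c i
    rw [← Finset.sum_add_distrib]
    exact Finset.sum_le_sum fun i hi => (hf i hi).1 y x x' h
  · intro x y y' h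
    show ∑ i ∈ s, f i x y ≤ ∑ i ∈ s, f i x y' + ∑ i ∈ s, c i
    rw [← Finset.sum_add_distrib]
    exact Finset.sum_le_sum fun i hi => (hf i hi).2 x y y' h

lemma Lp2.sup' {ι : Type*} (s : Finset ι) (hs : s.Nonempty) {c : ℝ} {f : ι → List α → List α → ℝ}
    (hf : ∀ i ∈ s, Lp2 c (f i)) :
    Lp2 c (fun x y => s.sup' hs (fun i => f i x y)) := by
  constructor
  · intro y x x' h
    refine Finset.sup'_le _ _ fun i hi => ((hf i hi).1 y x x' h).trans ?_
    have := Finset.le_sup' (fun i => f i x' y) hi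
    simp only at this ⊢
    linarith
  · intro x y y' h
    refine Finset.sup'_le _ _ fun i hi => ((hf i hi).2 x y y' h).trans ?_
    have := Finset.le_sup' (fun i => f i x y') hi
    simp only at this ⊢
    linarith

/-- composition with maps which do not increase the distance -/
lemma Lp2.comp {c : ℝ} {f : List α → List α → ℝ} (hf : Lp2 c f) {p q : List α → List α}
    (hp : ∀ x x', D1 x x' → D1 (p x) (p x')) (hq : ∀ x x', D1 x x' → D1 (q x) (q x')) :
    Lp2 c (fun x y => f (p x) (q y)) :=
  ⟨fun y x x' h => hf.1 (q y) _ _ (hp _ _ h), fun x y y' h => hf.2 (p x) _ _ (hq _ _ h)⟩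

variable {k : ℕ}

/-- mean over a pair of words -/
noncomputable def E2 (k a b : ℕ) (f : List (Fin k) → List (Fin k) → ℝ) : ℝ :=
  Ex k a fun x => Ex k b fun y => f x y

lemma E2_mono {a b : ℕ} {f g : List (Fin k) → List (Fin k) → ℝ}
    (h : ∀ x y, x.length = a → y.length = b → f x y ≤ g x y) : E2 k a b f ≤ E2 k a b g :=
  Ex_mono fun x hx => Ex_mono fun y hy => h x y hx hy

lemma E2_congr {a b : ℕ} {f g : List (Fin k) → List (Fin k) → ℝ}
    (h : ∀ x y, x.length = a → y.length = b → f x y = g x y) : E2 k a b f = E2 k a b g :=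
  Ex_congr fun x hx => Ex_congr fun y hy => h x y hx hy

lemma E2_add (a b : ℕ) (f g : List (Fin k) → List (Fin k) → ℝ) :
    E2 k a b (fun x y => f x y + g x y) = E2 k a b f + E2 k a b g := by
  unfold E2; simp only [Ex_add]

lemma E2_sub (a b : ℕ) (f g : List (Fin k) → List (Fin k) → ℝ) :
    E2 k a b (fun x y => f x y - g x y) = E2 k a b f - E2 k a b g := by
  unfold E2; simp only [Ex_sub]

lemma E2_const (hk : 0 < k) (a b : ℕ) (c : ℝ) : E2 k a b (fun _ _ => c) = c := by
  unfold E2; simp only [Ex_const hk]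

lemma E2_const_mul (a b : ℕ) (c : ℝ) (f : List (Fin k) → List (Fin k) → ℝ) :
    E2 k a b (fun x y => c * f x y) = c * E2 k a b f := by
  unfold E2; simp only [Ex_const_mul]

lemma E2_sum {ι : Type*} (s : Finset ι) (a b : ℕ) (f : ι → List (Fin k) → List (Fin k) → ℝ) :
    E2 k a b (fun x y => ∑ i ∈ s, f i x y) = ∑ i ∈ s, E2 k a b (f i) := by
  unfold E2; simp only [Ex_finset_sum]

lemma Lp.mean_le {c : ℝ} {n : ℕ} {f : List (Fin k) → ℝ} (hf : Lp c f) (hk : 0 < k) (a a' : Fin k) :
    Ex k n (fun w => f (a :: w)) ≤ Ex k n (fun w => f (a' :: w)) + c := by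
  have h1 : Ex k n (fun w => f (a' :: w)) + c = Ex k n (fun w => f (a' :: w) + c) := by
    rw [Ex_add, Ex_const hk]
  rw [h1]
  exact Ex_mono fun w _ => hf _ _ (Or.inr ⟨[], a, a', w, rfl, rfl⟩)

lemma Lp.cons {c : ℝ} {f : List α → ℝ} (hf : Lp c f) (a : α) : Lp c (fun w => f (a :: w)) := by
  intro x x' h
  rcases h with rfl | ⟨u, b, b', v, rfl, rfl⟩
  · exact hf _ _ (Or.inl rfl)
  · exact hf _ _ (Or.inr ⟨a :: u, b, b', v, rfl, rfl⟩)

/-- variance of a Lipschitz function of one word -/
lemma var_Lp (hk : 0 < k) {c : ℝ} (n : ℕ) {f : List (Fin k) → ℝ} (hf : Lp c f) :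
    Ex k n (fun w => (f w - Ex k n f) ^ 2) ≤ c ^ 2 * n := by
  induction n generalizing f with
  | zero => simp
  | succ n ih =>
    have hk' : (0 : ℝ) < k := by exact_mod_cast hk
    set M := Ex k (n + 1) f with hM
    set m : Fin k → ℝ := fun a => Ex k n (fun w => f (a :: w)) with hm
    have hMm : M = (∑ a, m a) / k := by rw [hM, Ex_succ]
    have hdev : ∀ a, (m a - M) ^ 2 ≤ c ^ 2 := by
      intro a
      have h1 : ∀ a', m a ≤ m a' + c := fun a' => hf.mean_le hk a a'
      have h2 : ∀ a', m a' ≤ m a + c := fun a' => hf.mean_le hk a' a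
      have h3 : m a ≤ M + c := by
        rw [hMm, div_add' _ _ _ hk'.ne', le_div_iff₀ hk']
        calc m a * k = ∑ a' : Fin k, m a := by simp [mul_comm]
          _ ≤ ∑ a' : Fin k, (m a' + c) := Finset.sum_le_sum fun a' _ => h1 a'
          _ = _ := by rw [Finset.sum_add_distrib]; simp [mul_comm]
      have h4 : M ≤ m a + c := by
        rw [hMm, div_le_iff₀ hk']
        calc ∑ a', m a' ≤ ∑ a' : Fin k, (m a + c) := Finset.sum_le_sum fun a' _ => h2 a'
          _ = _ := by
            simp
            ring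
      have h5 : 0 ≤ c := by
        have := h1 a
        linarith
      nlinarith
    rw [Ex_succ]
    have h : ∀ a : Fin k, Ex k n (fun w => (f (a :: w) - M) ^ 2) ≤ c ^ 2 * n + c ^ 2 := by
      intro a
      have h1 : Ex k n (fun w => (f (a :: w) - M) ^ 2) =
          Ex k n (fun w => (f (a :: w) - m a) ^ 2) + (m a - M) ^ 2 := by
        have : ∀ w : List (Fin k), (f (a :: w) - M) ^ 2 =
            (f (a :: w) - m a) ^ 2 + (2 * (m a - M) * (f (a :: w) - m a) + (m a - M) ^ 2) := by
          intro w; ring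
        simp only [this]
        rw [Ex_add, Ex_add, Ex_const_mul, Ex_sub, Ex_const hk, Ex_const hk]
        simp [hm]
      rw [h1]
      exact add_le_add (ih (hf.cons a)) (hdev a)
    rw [div_le_iff₀ hk']
    calc ∑ a, Ex k n (fun w => (f (a :: w) - M) ^ 2) ≤ ∑ _a : Fin k, (c ^ 2 * n + c ^ 2) :=
          Finset.sum_le_sum fun a _ => h a
      _ = _ := by
        simp
        ring

lemma Ex_sq_sub (hk : 0 < k) (n : ℕ) (f : List (Fin k) → ℝ) (M : ℝ) :
    Ex k n (fun w => (f w - M) ^ 2) =
      Ex k n (fun w => (f w - Ex k n f) ^ 2) + (Ex k n f - M) ^ 2 := by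
  set m := Ex k n f with hm
  have : ∀ w : List (Fin k), (f w - M) ^ 2 =
      (f w - m) ^ 2 + (2 * (m - M) * (f w - m) + (m - M) ^ 2) := by
    intro w; ring
  simp only [this]
  rw [Ex_add, Ex_add, Ex_const_mul, Ex_sub, Ex_const hk, Ex_const hk]
  simp [hm]

/-- variance of a Lipschitz function of two words -/
lemma var_Lp2 (hk : 0 < k) {c : ℝ} (a b : ℕ) {f : List (Fin k) → List (Fin k) → ℝ}
    (hf : Lp2 c f) :
    E2 k a b (fun x y => (f x y - E2 k a b f) ^ 2) ≤ c ^ 2 * (a + b) := by
  have h1 : ∀ x : List (Fin k), Ex k b (fun y => (f x y - E2 k a b f) ^ 2) ≤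
      c ^ 2 * b + (Ex k b (f x) - E2 k a b f) ^ 2 := by
    intro x
    rw [Ex_sq_sub hk]
    exact add_le_add_left (var_Lp hk b (hf.2 x)) _
  have h2 : Lp c (fun x => Ex k b (f x)) := by
    intro x x' h
    have h3 : Ex k b (f x') + c = Ex k b (fun y => f x' y + c) := by rw [Ex_add, Ex_const hk]
    show Ex k b (f x) ≤ Ex k b (f x') + c
    rw [h3]
    exact Ex_mono fun y _ => hf.1 y _ _ h
  calc E2 k a b (fun x y => (f x y - E2 k a b f) ^ 2)
      ≤ Ex k a (fun x => c ^ 2 * b + (Ex k b (f x) - E2 k a b f) ^ 2) :=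
        Ex_mono fun x _ => h1 x
    _ = c ^ 2 * b + Ex k a (fun x => (Ex k b (f x) - Ex k a (fun x => Ex k b (f x))) ^ 2) := by
        rw [Ex_add, Ex_const hk]; rfl
    _ ≤ c ^ 2 * b + c ^ 2 * a := add_le_add_right (var_Lp hk a h2) _
    _ = _ := by ring

lemma E2_abs_dev (hk : 0 < k) {c : ℝ} (hc : 0 ≤ c) (a b : ℕ)
    {f : List (Fin k) → List (Fin k) → ℝ} (hf : Lp2 c f) :
    E2 k a b (fun x y => |f x y - E2 k a b f|) ≤ c * √(a + b) := by
  rcases (by positivity : 0 ≤ c * √((a : ℝ) + b)).eq_or_lt with h0 | h0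
  · -- degenerate
    have hv := var_Lp2 hk a b hf
    have h1 : c ^ 2 * ((a : ℝ) + b) = 0 := by
      have : (c * √((a : ℝ) + b)) ^ 2 = 0 := by rw [← h0]; ring
      rwa [mul_pow, Real.sq_sqrt (by positivity)] at this
    rw [h1] at hv
    rw [← h0]
    apply le_of_forall_pos_le_add
    intro ε hε
    calc E2 k a b (fun x y => |f x y - E2 k a b f|)
        ≤ E2 k a b (fun x y => ε + (1 / ε) * (f x y - E2 k a b f) ^ 2) := by
          apply E2_mono
          intro x y _ _
          have h2 : 0 ≤ (|f x y - E2 k a b f| - ε) ^ 2 := sq_nonneg _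
          have h3 : |f x y - E2 k a b f| ^ 2 = (f x y - E2 k a b f) ^ 2 := sq_abs _
          rw [← h3]
          have h4 : 0 ≤ |f x y - E2 k a b f| := abs_nonneg _
          rw [← sub_nonneg]
          have : ε + 1 / ε * |f x y - E2 k a b f| ^ 2 - |f x y - E2 k a b f| =
              (1 / ε) * ((|f x y - E2 k a b f| - ε) ^ 2 + ε * |f x y - E2 k a b f|) := by
            field_simp
            ring
          rw [this]
          positivity
      _ = ε + (1 / ε) * E2 k a b (fun x y => (f x y - E2 k a b f) ^ 2) := by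
          rw [E2_add, E2_const hk, E2_const_mul]
      _ ≤ 0 + ε := by
          have : (1 / ε) * E2 k a b (fun x y => (f x y - E2 k a b f) ^ 2) ≤ 0 :=
            mul_nonpos_of_nonneg_of_nonpos (by positivity) hv
          linarith
  · set T := c * √((a : ℝ) + b) with hT
    have hT2 : T ^ 2 = c ^ 2 * ((a : ℝ) + b) := by
      rw [hT, mul_pow, Real.sq_sqrt (by positivity)]
    calc E2 k a b (fun x y => |f x y - E2 k a b f|)
        ≤ E2 k a b (fun x y => T / 2 + (1 / (2 * T)) * (f x y - E2 k a b f) ^ 2) := by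
          apply E2_mono
          intro x y _ _
          have h2 : 0 ≤ (|f x y - E2 k a b f| - T) ^ 2 := sq_nonneg _
          have h3 : |f x y - E2 k a b f| ^ 2 = (f x y - E2 k a b f) ^ 2 := sq_abs _
          rw [← h3, ← sub_nonneg]
          have : T / 2 + 1 / (2 * T) * |f x y - E2 k a b f| ^ 2 - |f x y - E2 k a b f| =
              (1 / (2 * T)) * ((|f x y - E2 k a b f| - T) ^ 2) := by
            field_simp
            ring
          rw [this]
          positivity
      _ = T / 2 + (1 / (2 * T)) * E2 k a b (fun x y => (f x y - E2 k a b f) ^ 2) := by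
          rw [E2_add, E2_const hk, E2_const_mul]
      _ ≤ T / 2 + (1 / (2 * T)) * T ^ 2 := by
          rw [hT2]
          exact add_le_add_right (mul_le_mul_of_nonneg_left (var_Lp2 hk a b hf) (by positivity)) _
      _ = T := by field_simp; ring

/-- positive part of a function with negative mean -/
lemma E2_pos_part (hk : 0 < k) {c μ : ℝ} (hμ : 0 < μ) (a b : ℕ)
    {f : List (Fin k) → List (Fin k) → ℝ} (hf : Lp2 c f) (hm : E2 k a b f ≤ -μ) :
    E2 k a b (fun x y => max (f x y) 0) ≤ c ^ 2 * (a + b) / (4 * μ) := by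
  set M := E2 k a b f with hM
  calc E2 k a b (fun x y => max (f x y) 0)
      ≤ E2 k a b (fun x y => (1 / (4 * μ)) * (f x y - M) ^ 2) := by
        apply E2_mono
        intro x y _ _
        apply max_le
        · rw [one_div, inv_mul_eq_div, le_div_iff₀ (by positivity)]
          rcases le_total (f x y) 0 with h | h
          · nlinarith [sq_nonneg (f x y - M)]
          · nlinarith [sq_nonneg (f x y - μ), mul_nonneg h (by linarith : 0 ≤ -M - μ)]
        · positivity
    _ = (1 / (4 * μ)) * E2 k a b (fun x y => (f x y - M) ^ 2) := E2_const_mul _ _ _ _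
    _ ≤ (1 / (4 * μ)) * (c ^ 2 * (a + b)) :=
        mul_le_mul_of_nonneg_left (var_Lp2 hk a b hf) (by positivity)
    _ = _ := by ring

/-! ### windows -/

lemma Ex_take_drop (hk : 0 < k) {n g c : ℕ} (h : g + c ≤ n) (f : List (Fin k) → ℝ) :
    Ex k n (fun y => f ((y.drop g).take c)) = Ex k c f := by
  obtain ⟨d, rfl⟩ := Nat.exists_eq_add_of_le h
  rw [add_assoc, Ex_append]
  have : ∀ u : List (Fin k), u.length = g →
      Ex k (c + d) (fun v => f (((u ++ v).drop g).take c)) = Ex k c f := by
    intro u hu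
    rw [Ex_append]
    apply Ex_congr
    intro v hv
    have : ∀ w : List (Fin k), ((u ++ (v ++ w)).drop g).take c = v := by
      intro w
      rw [List.drop_left' hu, List.take_left' hv]
    simp only [this]
    exact Ex_const hk _ _
  rw [Ex_congr this, Ex_const hk]

lemma Ex_reverse (n : ℕ) (f : List (Fin k) → ℝ) :
    Ex k n (fun y => f y.reverse) = Ex k n f := by
  induction n generalizing f with
  | zero => simp
  | succ n ih =>
    have h1 : Ex k (n + 1) (fun y => f y.reverse) =
        (∑ c : Fin k, Ex k n (fun w => f (w ++ [c]))) / k := by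
      rw [Ex_succ]
      congr 1
      refine Finset.sum_congr rfl fun c _ => ?_
      simp only [List.reverse_cons]
      exact ih (fun w => f (w ++ [c]))
    have h2 : Ex k (n + 1) f = (∑ c : Fin k, Ex k n (fun w => f (w ++ [c]))) / k := by
      rw [Ex_append n 1]
      have : ∀ u : List (Fin k), Ex k 1 (fun v => f (u ++ v)) =
          (∑ c : Fin k, f (u ++ [c])) * (k : ℝ)⁻¹ := by
        intro u
        rw [show (1 : ℕ) = 0 + 1 by rfl, Ex_succ]
        simp [div_eq_mul_inv]
      simp only [this]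
      rw [Ex_mul_const, Ex_finset_sum, div_eq_mul_inv]
    rw [h1, h2]

end Pool.Agent.LCSB85
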