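import Pool.Agent.Work.MP_bec1e1_BASE_h85.Gen

/-!
# BASE, part (INF): uniform lower bound over a window of end points
-/

set_option autoImplicit false

open scoped BigOperators

namespace Pool.Agent.LCSB85

open Pool.Agent.LCSE

variable {k : ℕ}

/-- mean LCS of two random words -/
noncomputable def FF (k a b : ℕ) : ℝ := E2 k a b fun x y => (L x y : ℝ)

lemma E2_win (hk : 0 < k) {a b g1 c1 g2 c2 : ℕ} (h1 : g1 + c1 ≤ a) (h2 : g2 + c2 ≤ b)
    (f : List (Fin k) → List (Fin k) → ℝ) :
    E2 k a b (fun x y => f ((x.drop g1).take c1) ((y.drop g2).take c2)) = E2 k c1 c2 f := by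
  unfold E2
  have : ∀ x : List (Fin k), Ex k b (fun y => f ((x.drop g1).take c1) ((y.drop g2).take c2)) =
      Ex k c2 (f ((x.drop g1).take c1)) := fun x => Ex_take_drop hk h2 _
  simp only [this]
  exact Ex_take_drop hk h1 (fun x => Ex k c2 (f x))

/-- the mean of a maximum -/
lemma E2_sup_le (hk : 0 < k) {ι : Type*} (s : Finset ι) (hs : s.Nonempty) (a b : ℕ)
    (f : ι → List (Fin k) → List (Fin k) → ℝ) (m : ι → ℝ) (B δ : ℝ)
    (hm : ∀ i ∈ s, m i ≤ B)
    (hd : ∀ i ∈ s, E2 k a b (fun x y => |f i x y - m i|) ≤ δ) :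
    E2 k a b (fun x y => s.sup' hs fun i => f i x y) ≤ B + s.card * δ := by
  calc E2 k a b (fun x y => s.sup' hs fun i => f i x y)
      ≤ E2 k a b (fun x y => B + ∑ i ∈ s, |f i x y - m i|) := by
        apply E2_mono
        intro x y _ _
        apply Finset.sup'_le
        intro i hi
        have h1 : |f i x y - m i| ≤ ∑ i ∈ s, |f i x y - m i| :=
          Finset.single_le_sum (f := fun i => |f i x y - m i|) (fun _ _ => abs_nonneg _) hi
        have h2 := hm i hi
        have h3 := le_abs_self (f i x y - m i)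
        linarith
    _ = B + ∑ i ∈ s, E2 k a b (fun x y => |f i x y - m i|) := by
        rw [E2_add, E2_const hk, E2_sum]
    _ ≤ B + ∑ i ∈ s, δ := by
        gcongr with i hi
        exact hd i hi
    _ = _ := by simp

/-- window maximum: `max (α (r + s) - L x (y.take s))` over `|s - r| ≤ K` -/
noncomputable def DD (α : ℝ) (r K : ℕ) (x y : List (Fin k)) : ℝ :=
  (Finset.range (2 * K + 1)).sup' ⟨0, by simp⟩ fun t =>
    α * ((r : ℝ) + ((r - K + t : ℕ) : ℝ)) - (L x (y.take (r - K + t)) : ℝ)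

lemma le_DD (α : ℝ) {r K s : ℕ} (x y : List (Fin k)) (h1 : r ≤ s + K) (h2 : s ≤ r + K)
    (hK : K ≤ r) :
    α * ((r : ℝ) + s) - (L x (y.take s) : ℝ) ≤ DD α r K x y := by
  have h := Finset.le_sup' (s := Finset.range (2 * K + 1)) (fun t : ℕ =>
    α * ((r : ℝ) + ((r - K + t : ℕ) : ℝ)) - (L x (y.take (r - K + t)) : ℝ))
    (b := s + K - r) (Finset.mem_range.mpr (by omega))
  have h3 : r - K + (s + K - r) = s := by omega
  simp only [h3] at h
  exact h

lemma Lp2_DD (α : ℝ) (r K : ℕ) : Lp2 1 (DD (k := k) α r K) := by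
  apply Lp2.sup'
  intro t _
  apply Lp2.const_sub
  exact Lp2.of_L.comp (p := fun x => x) (q := fun y => y.take (r - K + t)) (fun _ _ h => h)
    (fun _ _ h => h.take _)

lemma DD_take (α : ℝ) {r K n : ℕ} (x y : List (Fin k)) (hK : K ≤ r) (hn : r + K ≤ n) :
    DD α r K x (y.take n) = DD α r K x y := by
  unfold DD
  apply Finset.sup'_congr _ rfl
  intro t ht
  have ht' := Finset.mem_range.mp ht
  rw [List.take_take, min_eq_left (by omega)]

lemma DD_split (α : ℝ) {r1 r2 K2 e : ℕ} (x1 x2 y : List (Fin k)) (he : e ≤ K2 + 1) (he1 : e ≤ r1)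
    (hK2 : K2 ≤ r2) :
    DD α (r1 + r2) (K2 + e) (x1 ++ x2) y ≤
      (Finset.range 3).sup' ⟨0, by simp⟩ (fun i =>
        α * ((r1 : ℝ) + ((r1 - e + i * e : ℕ) : ℝ)) - (L x1 (y.take (r1 - e + i * e)) : ℝ)) +
      (Finset.range 3).sup' ⟨0, by simp⟩ (fun i =>
        DD α r2 K2 x2 ((y.drop (r1 - e + i * e)).take (r2 + K2))) := by
  have key : ∀ i s : ℕ, i < 3 → r1 - e + i * e ≤ s → r2 ≤ s - (r1 - e + i * e) + K2 →
      s - (r1 - e + i * e) ≤ r2 + K2 →
      α * (((r1 + r2 : ℕ) : ℝ) + (s : ℝ)) - (L (x1 ++ x2) (y.take s) : ℝ) ≤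
      (Finset.range 3).sup' ⟨0, by simp⟩ (fun i =>
        α * ((r1 : ℝ) + ((r1 - e + i * e : ℕ) : ℝ)) - (L x1 (y.take (r1 - e + i * e)) : ℝ)) +
      (Finset.range 3).sup' ⟨0, by simp⟩ (fun i =>
        DD α r2 K2 x2 ((y.drop (r1 - e + i * e)).take (r2 + K2))) := by
    intro i s hi hgs h1 h2
    have h3 := Finset.le_sup' (s := Finset.range 3) (fun i : ℕ =>
      α * ((r1 : ℝ) + ((r1 - e + i * e : ℕ) : ℝ)) - (L x1 (y.take (r1 - e + i * e)) : ℝ))
      (Finset.mem_range.mpr hi)
    have h4 := Finset.le_sup' (s := Finset.range 3) (fun i : ℕ =>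
        DD α r2 K2 x2 ((y.drop (r1 - e + i * e)).take (r2 + K2))) (Finset.mem_range.mpr hi)
    beta_reduce at h3 h4
    refine le_trans ?_ (add_le_add h3 h4)
    set g := r1 - e + i * e with hg
    obtain ⟨d, rfl⟩ := Nat.exists_eq_add_of_le hgs
    rw [Nat.add_sub_cancel_left] at h1 h2
    have h5 := le_DD α x2 ((y.drop g).take (r2 + K2)) h1 h2 hK2
    rw [List.take_take, min_eq_left h2] at h5
    have h6 : L x1 (y.take g) + L x2 ((y.drop g).take d) ≤ L (x1 ++ x2) (y.take (g + d)) := by
      have h0 : y.take (g + d) = y.take g ++ (y.drop g).take d := List.take_add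
      rw [h0]
      exact L_append_ge _ _ _ _
    have h7 : (L x1 (y.take g) : ℝ) + (L x2 ((y.drop g).take d) : ℝ) ≤
        (L (x1 ++ x2) (y.take (g + d)) : ℝ) := by exact_mod_cast h6
    have h8 : α * (((r1 + r2 : ℕ) : ℝ) + ((g + d : ℕ) : ℝ)) =
        α * ((r1 : ℝ) + (g : ℝ)) + α * ((r2 : ℝ) + (d : ℝ)) := by
      push_cast; ring
    rw [h8]
    linarith
  unfold DD
  apply Finset.sup'_le
  intro t ht
  have ht' := Finset.mem_range.mp ht
  set s := r1 + r2 - (K2 + e) + t with hs
  have hs1 : r1 + r2 - (K2 + e) ≤ s := by omega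
  have hs2 : s ≤ r1 + r2 + (K2 + e) := by omega
  rcases Nat.lt_or_ge s (r1 + r2 - K2) with h | h
  · refine key 0 s (by norm_num) (by omega) ?_ ?_
    · omega
    · omega
  · rcases Nat.lt_or_ge (r1 + r2 + K2) s with h' | h'
    · refine key 2 s (by norm_num) (by omega) ?_ ?_
      · omega
      · omega
    · refine key 1 s (by norm_num) (by omega) ?_ ?_
      · omega
      · omega

/-- (INF) -/
theorem INF (hk : 0 < k) (q : ℕ) (hq : 2 ≤ q) (α C₁ : ℝ) (hα1 : α ≤ 1) (hC : 0 ≤ C₁)
    (hD : ∀ r g : ℕ, 1 ≤ r → g ≤ r + (r / q + 1) → r ≤ g + (r / q + 1) →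
      α * (r + g) - FF k r g ≤ C₁ * √r) :
    ∀ r n m : ℕ, r ≤ n → r + r / q ≤ m →
      E2 k n m (fun x y => DD α r (r / q) (x.take r) y) ≤ 8 * (C₁ + 12) * √r := by
  -- reduction to the minimal lengths
  have red : ∀ r n m : ℕ, r ≤ n → r + r / q ≤ m →
      E2 k n m (fun x y => DD α r (r / q) (x.take r) y) =
      E2 k r (r + r / q) (DD α r (r / q)) := by
    intro r n m hn hm
    have h := E2_win (k := k) hk (a := n) (b := m) (g1 := 0) (c1 := r) (g2 := 0)
      (c2 := r + r / q) (by omega) (by omega) (DD α r (r / q))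
    rw [← h]
    apply E2_congr
    intro x y _ _
    simp only [List.drop_zero]
    rw [DD_take α _ _ (Nat.div_le_self r q) le_rfl]
  suffices H : ∀ r : ℕ, E2 k r (r + r / q) (DD α r (r / q)) ≤ 8 * (C₁ + 12) * √r by
    intro r n m hn hm
    rw [red r n m hn hm]
    exact H r
  intro r
  induction r using Nat.strong_induction_on with
  | _ r ih =>
  rcases Nat.lt_or_ge r 2 with hr | hr
  · -- r = 0, 1
    have hdiv : r / q = 0 := Nat.div_eq_of_lt (by omega)
    rw [hdiv]
    have h1 : E2 k r (r + 0) (DD α r 0) ≤ E2 k r (r + 0) (fun _ _ => 2 * r) := by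
      apply E2_mono
      intro x y _ _
      unfold DD
      apply Finset.sup'_le
      intro t ht
      have ht' := Finset.mem_range.mp ht
      have : t = 0 := by omega
      subst this
      simp only [Nat.sub_zero, Nat.add_zero]
      have h2 : (0 : ℝ) ≤ (L x (y.take r) : ℝ) := Nat.cast_nonneg _
      have h3 : (0 : ℝ) ≤ r := Nat.cast_nonneg _
      nlinarith
    rw [E2_const hk] at h1
    refine h1.trans ?_
    interval_cases r
    · simp
    · simp
      linarith
  · -- recursion
    set r1 := r / 2 with hr1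
    set r2 := r - r1 with hr2
    have hr12 : r = r1 + r2 := by omega
    have hr1' : 1 ≤ r1 := by omega
    have hr2' : r2 < r := by omega
    have hle : r1 ≤ r2 := by omega
    set K := r / q with hK
    set K2 := r2 / q with hK2
    have hKK : K2 ≤ K := Nat.div_le_div_right (by omega)
    set e := K - K2 with he
    have hKe : K = K2 + e := by omega
    have he' : e ≤ r1 / q + 1 := by
      have h1 : (r1 + r2) / q ≤ r1 / q + r2 / q + 1 := by
        rw [Nat.div_le_iff_le_mul_add_pred (by omega)]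
        have h2 := Nat.div_add_mod r1 q
        have h3 := Nat.div_add_mod r2 q
        have h4 := Nat.mod_lt r1 (show 0 < q by omega)
        have h5 := Nat.mod_lt r2 (show 0 < q by omega)
        have h6 : q * (r1 / q + r2 / q + 1) = q * (r1 / q) + q * (r2 / q) + q := by ring
        omega
      have h2 : K ≤ r1 / q + K2 + 1 := by rw [hK, hr12]; exact h1
      omega
    have hq1 : r1 / q ≤ K2 := Nat.div_le_div_right hle
    have heK : e ≤ K2 + 1 := by omega
    have hr1q : r1 / q + 1 ≤ r1 := by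
      have : r1 / q < r1 := Nat.div_lt_self (by omega) (by omega)
      omega
    have her1 : e ≤ r1 := by omega
    have hK2r2 : K2 ≤ r2 := Nat.div_le_self _ _
    have hK2r : K2 ≤ r := by omega
    clear_value K K2 e
    have hsqrt : (0 : ℝ) ≤ √r := Real.sqrt_nonneg _
    -- first half
    have hA : ∀ i ∈ Finset.range 3, α * ((r1 : ℝ) + ((r1 - e + i * e : ℕ) : ℝ)) -
        FF k r1 (r1 - e + i * e) ≤ C₁ * √r := by
      intro i hi
      have hi' := Finset.mem_range.mp hi
      have h1 : r1 - e + i * e ≤ r1 + (r1 / q + 1) := by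
        interval_cases i <;> omega
      have h2 : r1 ≤ r1 - e + i * e + (r1 / q + 1) := by
        interval_cases i <;> omega
      refine (hD r1 _ hr1' h1 h2).trans ?_
      apply mul_le_mul_of_nonneg_left _ hC
      apply Real.sqrt_le_sqrt
      exact_mod_cast (by omega : r1 ≤ r)
    have hgi : ∀ i ∈ Finset.range 3, r1 - e + i * e ≤ 2 * r1 := by
      intro i hi
      have hi' := Finset.mem_range.mp hi
      interval_cases i <;> omega
    have hA2 : ∀ i ∈ Finset.range 3, E2 k r (r + K) (fun x y =>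
        |(α * ((r1 : ℝ) + ((r1 - e + i * e : ℕ) : ℝ)) -
          (L (x.take r1) (y.take (r1 - e + i * e)) : ℝ)) -
        (α * ((r1 : ℝ) + ((r1 - e + i * e : ℕ) : ℝ)) - FF k r1 (r1 - e + i * e))|) ≤ 2 * √r := by
      intro i hi
      have hg := hgi i hi
      set g := r1 - e + i * e with hgdef
      have hgr : g ≤ r + K := by omega
      have h1 := E2_win (k := k) hk (a := r) (b := r + K) (g1 := 0) (c1 := r1) (g2 := 0)
        (c2 := g) (by omega) (by omega) (fun x y => |(L x y : ℝ) - FF k r1 g|)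
      simp only [List.drop_zero] at h1
      have h2 : E2 k r (r + K) (fun x y =>
        |(α * ((r1 : ℝ) + (g : ℝ)) - (L (x.take r1) (y.take g) : ℝ)) -
        (α * ((r1 : ℝ) + (g : ℝ)) - FF k r1 g)|) =
        E2 k r (r + K) (fun x y => |(L (x.take r1) (y.take g) : ℝ) - FF k r1 g|) := by
        apply E2_congr
        intro x y _ _
        rw [← abs_neg]
        congr 1
        ring
      rw [h2, h1]
      refine (E2_abs_dev hk (c := 1) zero_le_one r1 g Lp2.of_L).trans ?_
      rw [one_mul]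
      have h3 : (2 : ℝ) * √r = √(4 * r) := by
        rw [Real.sqrt_mul (by norm_num : (0 : ℝ) ≤ 4), show (4 : ℝ) = 2 ^ 2 by norm_num,
          Real.sqrt_sq (by norm_num)]
      rw [h3]
      apply Real.sqrt_le_sqrt
      have : r1 + g ≤ 4 * r := by omega
      exact_mod_cast this
    have hB : ∀ i ∈ Finset.range 3, E2 k r (r + K) (fun x y =>
        |DD α r2 K2 (x.drop r1) ((y.drop (r1 - e + i * e)).take (r2 + K2)) -
          E2 k r2 (r2 + K2) (DD α r2 K2)|) ≤ 2 * √r := by
      intro i hi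
      have hg := hgi i hi
      set g := r1 - e + i * e with hgdef
      have hi' := Finset.mem_range.mp hi
      have hgK : g + (r2 + K2) ≤ r + K := by
        have : g ≤ r1 + e := by
          rw [hgdef]
          interval_cases i <;> omega
        omega
      have h1 := E2_win (k := k) hk (a := r) (b := r + K) (g1 := r1) (c1 := r2) (g2 := g)
        (c2 := r2 + K2) (by omega) hgK
        (fun x y => |DD α r2 K2 x y - E2 k r2 (r2 + K2) (DD α r2 K2)|)
      have h2 : E2 k r (r + K) (fun x y =>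
        |DD α r2 K2 (x.drop r1) ((y.drop g).take (r2 + K2)) -
          E2 k r2 (r2 + K2) (DD α r2 K2)|) = E2 k r (r + K) (fun x y =>
        |DD α r2 K2 ((x.drop r1).take r2) ((y.drop g).take (r2 + K2)) -
          E2 k r2 (r2 + K2) (DD α r2 K2)|) := by
        apply E2_congr
        intro x y hx _
        rw [List.take_of_length_le (l := x.drop r1) (by simp; omega)]
      rw [h2, h1]
      refine (E2_abs_dev hk (c := 1) zero_le_one r2 (r2 + K2) (Lp2_DD α r2 K2)).trans ?_
      rw [one_mul]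
      have h3 : (2 : ℝ) * √r = √(4 * r) := by
        rw [Real.sqrt_mul (by norm_num : (0 : ℝ) ≤ 4), show (4 : ℝ) = 2 ^ 2 by norm_num,
          Real.sqrt_sq (by norm_num)]
      rw [h3]
      apply Real.sqrt_le_sqrt
      have : r2 + (r2 + K2) ≤ 4 * r := by omega
      exact_mod_cast this
    have hih := ih r2 hr2'
    rw [← hK2] at hih
    -- assemble
    have hsum : E2 k r (r + K) (DD α r K) ≤
        (C₁ * √r + 3 * (2 * √r)) + (E2 k r2 (r2 + K2) (DD α r2 K2) + 3 * (2 * √r)) := by
      have h1 : E2 k r (r + K) (DD α r K) ≤ E2 k r (r + K) (fun x y =>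
          (Finset.range 3).sup' ⟨0, by simp⟩ (fun i =>
            α * ((r1 : ℝ) + ((r1 - e + i * e : ℕ) : ℝ)) -
              (L (x.take r1) (y.take (r1 - e + i * e)) : ℝ)) +
          (Finset.range 3).sup' ⟨0, by simp⟩ (fun i =>
            DD α r2 K2 (x.drop r1) ((y.drop (r1 - e + i * e)).take (r2 + K2)))) := by
        apply E2_mono
        intro x y _ _
        have h2 := DD_split α (x.take r1) (x.drop r1) y heK her1 hK2r2
        rw [List.take_append_drop, ← hKe, ← hr12] at h2
        exact h2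
      refine h1.trans ?_
      rw [E2_add]
      apply add_le_add
      · have h3 := E2_sup_le (k := k) hk (Finset.range 3) ⟨0, by simp⟩ r (r + K)
          (fun i x y => α * ((r1 : ℝ) + ((r1 - e + i * e : ℕ) : ℝ)) -
              (L (x.take r1) (y.take (r1 - e + i * e)) : ℝ))
          (fun i => α * ((r1 : ℝ) + ((r1 - e + i * e : ℕ) : ℝ)) - FF k r1 (r1 - e + i * e))
          (C₁ * √r) (2 * √r) hA hA2
        simpa using h3
      · have h3 := E2_sup_le (k := k) hk (Finset.range 3) ⟨0, by simp⟩ r (r + K)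
          (fun i x y => DD α r2 K2 (x.drop r1) ((y.drop (r1 - e + i * e)).take (r2 + K2)))
          (fun _ => E2 k r2 (r2 + K2) (DD α r2 K2))
          (E2 k r2 (r2 + K2) (DD α r2 K2)) (2 * √r) (fun _ _ => le_rfl) hB
        simpa using h3
    -- numbers
    have hr2bound : √(r2 : ℝ) ≤ 7 / 8 * √r := by
      have h1 : (7 / 8 : ℝ) * √r = √(49 / 64 * r) := by
        rw [Real.sqrt_mul (by norm_num : (0 : ℝ) ≤ 49 / 64), show (49 / 64 : ℝ) = (7 / 8) ^ 2 by norm_num,
          Real.sqrt_sq (by norm_num)]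
      rw [h1]
      apply Real.sqrt_le_sqrt
      have h2 : 4 * r2 ≤ 3 * r := by omega
      have h3 : (4 : ℝ) * r2 ≤ 3 * r := by exact_mod_cast h2
      linarith [(Nat.cast_nonneg r : (0 : ℝ) ≤ r)]
    have hfin : 8 * (C₁ + 12) * √(r2 : ℝ) ≤ 8 * (C₁ + 12) * (7 / 8 * √r) :=
      mul_le_mul_of_nonneg_left hr2bound (by linarith)
    nlinarith

end Pool.Agent.LCSB85
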