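import Pool.Agent.Work.MP_bec1e1_BASE_h85.Box

/-!
# BASE: the mean just inside a flat ray
-/

set_option autoImplicit false

open scoped BigOperators

namespace Pool.Agent.LCSB85

open Pool.Agent.LCSE

variable {k : ℕ}

/-- upper bound for the far paths -/
lemma far_bound {α ρ C κ c : ℝ} (h : Cone k α ρ C) (hκ : 0 < κ) (hc : 0 < c)
    (hgap : ∀ a b : ℕ, (ρ + κ) * a ≤ b → FF k a b ≤ (α - c) * (a + b))
    {J m R K w i l c0 : ℕ} (hi1 : 1 ≤ i) (hi2 : i ≤ J) (hc0 : c0 ≤ (J + 1) * R)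
    (hl1 : l * w ≤ c0) (hl2 : c0 < (l + 1) * w)
    (hbad : i * R + K < c0 ∨ c0 + K < i * R)
    (hR : ρ * m - 1 ≤ R) (hK : κ * (J * m) + J ≤ K + 1) :
    FF k (i * m) (min ((l + 1) * w) ((J + 1) * R)) +
      FF k ((J + 1 - i) * m) ((J + 1) * R - l * w) ≤
      α * (((J : ℝ) + 1) * m + ((J : ℝ) + 1) * R + w) - c * m := by
  set g1 := min ((l + 1) * w) ((J + 1) * R) with hg1
  set b2 := (J + 1) * R - l * w with hb2
  set n2 := J + 1 - i with hn2
  have hρ := h.hρ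
  have hα := h.hα0
  have hg1c : c0 ≤ g1 := le_min hl2.le hc0
  have hg1w : g1 ≤ l * w + w := by
    have : (l + 1) * w = l * w + w := by ring
    rw [← this]; exact min_le_left _ _
  have hlw : l * w ≤ (J + 1) * R := hl1.trans hc0
  have hb2' : (b2 : ℝ) = ((J : ℝ) + 1) * R - l * w := by
    rw [hb2, Nat.cast_sub hlw]; push_cast; ring
  have hn2' : (n2 : ℝ) = (J : ℝ) + 1 - i := by
    rw [hn2, Nat.cast_sub (by omega)]; push_cast; ring
  have hg1w' : (g1 : ℝ) ≤ l * w + w := by exact_mod_cast hg1w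
  have hm0 : (0 : ℝ) ≤ m := Nat.cast_nonneg _
  have hR0 : (0 : ℝ) ≤ R := Nat.cast_nonneg _
  have hi1' : (1 : ℝ) ≤ i := by exact_mod_cast hi1
  have hi2' : (i : ℝ) ≤ J := by exact_mod_cast hi2
  have up1 := h.up (i * m) g1
  have up2 := h.up (n2 * m) b2
  have c1 : ((i * m : ℕ) : ℝ) = (i : ℝ) * m := by push_cast; ring
  have c2 : ((n2 * m : ℕ) : ℝ) = (n2 : ℝ) * m := by push_cast; ring
  rw [c1] at up1
  rw [c2] at up2
  have key : ∀ n : ℝ, 1 ≤ n → n ≤ J → (ρ + κ) * (n * m) ≤ n * R + K + 1 := by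
    intro n hn1 hn2
    have h1 : n * (ρ * m - 1) ≤ n * R := mul_le_mul_of_nonneg_left hR (by linarith)
    have h2 : κ * (n * m) ≤ κ * (J * m) :=
      mul_le_mul_of_nonneg_left (mul_le_mul_of_nonneg_right hn2 hm0) hκ.le
    linarith only [h1, h2, hK, hn2]
  rcases hbad with hb | hb
  · -- the first part leaves the cone
    have h1 : (i : ℝ) * R + K + 1 ≤ g1 := by
      have : i * R + K + 1 ≤ g1 := by omega
      exact_mod_cast this
    have h2 := hgap (i * m) g1 (by rw [c1]; exact (key i hi1' hi2').trans h1)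
    rw [c1] at h2
    have h3 : (m : ℝ) ≤ (i : ℝ) * m + g1 := by
      have : (0 : ℝ) ≤ g1 := Nat.cast_nonneg _
      have h7 := mul_le_mul_of_nonneg_right hi1' hm0
      linarith only [this, h7]
    have h4 : c * m ≤ c * ((i : ℝ) * m + g1) := mul_le_mul_of_nonneg_left h3 hc.le
    have h5 : α * (g1 : ℝ) ≤ α * (l * w + w) := mul_le_mul_of_nonneg_left hg1w' hα
    rw [hb2', hn2'] at up2
    linarith only [h2, h4, h5, up2]
  · have h1 : (n2 : ℝ) * R + K + 1 ≤ b2 := by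
      have h6 : n2 * R + K + 1 ≤ b2 := by
        have h7 : (J + 1) * R = n2 * R + i * R := by
          rw [← Nat.add_mul]; congr 1; omega
        omega
      exact_mod_cast h6
    have hn21 : (1 : ℝ) ≤ n2 := by exact_mod_cast (by omega : 1 ≤ n2)
    have hn22 : (n2 : ℝ) ≤ J := by exact_mod_cast (by omega : n2 ≤ J)
    have h2 := hgap (n2 * m) b2 (by rw [c2]; exact (key n2 hn21 hn22).trans h1)
    rw [c2] at h2
    have h3 : (m : ℝ) ≤ (n2 : ℝ) * m + b2 := by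
      have : (0 : ℝ) ≤ b2 := Nat.cast_nonneg _
      have h7 := mul_le_mul_of_nonneg_right hn21 hm0
      linarith only [this, h7]
    have h4 : c * m ≤ c * ((n2 : ℝ) * m + b2) := mul_le_mul_of_nonneg_left h3 hc.le
    have h5 : α * (g1 : ℝ) ≤ α * (l * w + w) := mul_le_mul_of_nonneg_left hg1w' hα
    rw [hb2', hn2'] at h2
    rw [hb2', hn2'] at h4
    linarith only [h2, h4, h5, up1]

theorem box_mean {α ρ C : ℝ} (h : Cone k α ρ C) (ε : ℝ) (hε : 0 < ε) :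
    ∃ Z0 : ℕ, ∀ Z : ℕ, Z0 ≤ Z → ∃ M0 : ℕ, ∀ m : ℕ, M0 ≤ m →
      α * (((m + 2 * (m / Z) : ℕ) : ℝ) + ((⌊ρ * m⌋₊ + 2 * (m / Z) : ℕ) : ℝ)) - ε * √m ≤
        FF k (m + 2 * (m / Z)) (⌊ρ * m⌋₊ + 2 * (m / Z)) := by
  obtain ⟨q, C₁, hq, hC₁, hnear⟩ := h.near
  have hρ := h.hρ
  have hρ0 : 0 < ρ := by linarith
  have hC := h.hC
  have hα0 := h.hα0
  have hα1 := h.hα1
  have inf := INF h.hk q hq α C₁ hα1 hC₁ hnear
  -- Z
  set A := 16 * (C₁ + 12) with hA
  have hA0 : 0 < A := by rw [hA]; linarith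
  obtain ⟨Z1, hZ1⟩ := exists_nat_ge ((4 * A / ε) ^ 2)
  refine ⟨max Z1 1, ?_⟩
  intro Z hZ
  have hZ1' : 1 ≤ Z := (le_max_right _ _).trans hZ
  have hZ0 : (0 : ℝ) < Z := by exact_mod_cast hZ1'
  have hZA : (4 * A / ε) ^ 2 ≤ Z := hZ1.trans (by exact_mod_cast (le_max_left _ _).trans hZ)
  -- J
  obtain ⟨J, hJ⟩ := exists_nat_ge ((4 * C / ε) ^ 2 * (1 + ρ))
  have hJ1 : (0 : ℝ) < (J : ℝ) + 1 := by positivity
  have hq0 : (0 : ℝ) < q := by exact_mod_cast (by omega : 0 < q)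
  set κ : ℝ := 1 / (2 * (Z : ℝ) * q * (J + 1)) with hκ
  have hκ0 : 0 < κ := by rw [hκ]; positivity
  obtain ⟨c, hc0, hgap⟩ := h.gap κ hκ0
  obtain ⟨Wn, hWn⟩ := exists_nat_ge (4 / c)
  have hWn0 : (0 : ℝ) < Wn := lt_of_lt_of_le (by positivity) hWn
  have hWn1 : 1 ≤ Wn := by exact_mod_cast hWn0
  obtain ⟨NL, hNL⟩ := exists_nat_gt (((J : ℝ) + 1) * ρ * (2 * Wn))
  -- error constant
  set E0 := (3 * ((J : ℝ) + 1) + 2) ^ 2 * (((J : ℝ) + 1) * (1 + ρ) + 4) / c with hE0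
  have hE00 : 0 ≤ E0 := by rw [hE0]; positivity
  set N1 := (((J + 1) * NL : ℕ) : ℝ) * E0 with hN1
  have hN10 : 0 ≤ N1 := by rw [hN1]; positivity
  obtain ⟨M1, hM1⟩ := exists_nat_ge
    (2 * Z * q * (J + 1) + 2 * Wn + (4 * ((J : ℝ) + 1) * C * √(5 + ρ) / c) ^ 2 +
      (4 * N1 / ε) ^ 2 + 1)
  refine ⟨M1, ?_⟩
  intro m hm
  have hmM : (2 * Z * q * (J + 1) + 2 * Wn + (4 * ((J : ℝ) + 1) * C * √(5 + ρ) / c) ^ 2 +
      (4 * N1 / ε) ^ 2 + 1) ≤ (m : ℝ) := hM1.trans (by exact_mod_cast hm)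
  have p1 : 0 ≤ 2 * (Z : ℝ) * q * (J + 1) := by positivity
  have p3 : 0 ≤ (4 * ((J : ℝ) + 1) * C * √(5 + ρ) / c) ^ 2 := sq_nonneg _
  have p4 : 0 ≤ (4 * N1 / ε) ^ 2 := sq_nonneg _
  have m1 : 2 * (Z : ℝ) * q * (J + 1) ≤ m := by linarith
  have m2 : 2 * (Wn : ℝ) ≤ m := by linarith
  have m3 : (4 * ((J : ℝ) + 1) * C * √(5 + ρ) / c) ^ 2 ≤ m := by linarith
  have m4 : (4 * N1 / ε) ^ 2 ≤ m := by linarith
  have m5 : (1 : ℝ) ≤ m := by linarith
  have hm0 : (0 : ℝ) < m := by linarith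
  have hsm : 0 < √(m : ℝ) := Real.sqrt_pos.mpr hm0
  have hsm2 : √(m : ℝ) * √(m : ℝ) = m := Real.mul_self_sqrt hm0.le
  set r := m / Z with hr
  set R := ⌊ρ * m⌋₊ with hR
  set K := r / q with hK
  set w := m / Wn with hw
  have hKr : K ≤ r := Nat.div_le_self _ _
  have hrm : (r : ℝ) ≤ m / Z := Nat.cast_div_le
  have hrm' : r ≤ m := Nat.div_le_self _ _
  have hrm'' : (r : ℝ) ≤ m := by exact_mod_cast hrm'
  have hRle : (R : ℝ) ≤ ρ * m := Nat.floor_le (by positivity)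
  have hRge : ρ * m - 1 ≤ R := by
    have := Nat.lt_floor_add_one (ρ * m)
    linarith
  have hmR : m ≤ R := by
    rw [hR]; apply Nat.le_floor
    have := mul_le_mul_of_nonneg_right hρ.le hm0.le
    linarith only [this]
  have hmR' : (m : ℝ) ≤ R := by exact_mod_cast hmR
  have hw0 : 0 < w := by
    rw [hw]; apply Nat.div_pos _ (by omega)
    have : 2 * Wn ≤ m := by exact_mod_cast m2
    omega
  have hwle : (w : ℝ) ≤ m / Wn := Nat.cast_div_le
  have hwc : (w : ℝ) ≤ c * m / 4 := by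
    refine hwle.trans ?_
    rw [div_le_iff₀ hWn0]
    rw [div_le_iff₀ hc0] at hWn
    have h6 := mul_le_mul_of_nonneg_right hWn hm0.le
    linarith only [h6]
  have hwge : (m : ℝ) / (2 * Wn) ≤ w := by
    have h1 : (m : ℝ) / Wn < w + 1 := by
      rw [div_lt_iff₀ hWn0]
      have h2 := Nat.lt_div_mul_add (show 0 < Wn by omega) (a := m)
      have h3 : m < (w + 1) * Wn := by
        rw [Nat.add_mul, one_mul]; exact h2
      exact_mod_cast h3
    have h2 : (m : ℝ) / (2 * Wn) = (m / Wn) / 2 := by field_simp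
    have h3 : (2 : ℝ) ≤ m / Wn := by rw [le_div_iff₀ hWn0]; linarith
    rw [h2]
    linarith
  have hKge : (m : ℝ) / (Z * q) ≤ K + 1 := by
    have h1 : K = m / (Z * q) := by rw [hK, hr, Nat.div_div_eq_div_mul]
    have hZq : 0 < Z * q := Nat.mul_pos (by omega) (by omega)
    have h2 := Nat.lt_div_mul_add hZq (a := m)
    have h3 : m < (K + 1) * (Z * q) := by
      rw [h1, Nat.add_mul, one_mul]; exact h2
    have h4 : (m : ℝ) < (K + 1) * (Z * q) := by exact_mod_cast h3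
    rw [div_le_iff₀ (by positivity)]
    exact h4.le
  have hKκ : κ * (J * m) + J ≤ K + 1 := by
    refine le_trans ?_ hKge
    have h1 : κ * (J * m) ≤ m / (2 * Z * q) := by
      rw [hκ]
      have h2 : 1 / (2 * (Z : ℝ) * q * (J + 1)) * (J * m) = (m / (2 * Z * q)) * (J / (J + 1)) := by
        field_simp
      rw [h2]
      apply mul_le_of_le_one_right (by positivity)
      rw [div_le_one hJ1]; linarith
    have h2 : (J : ℝ) ≤ m / (2 * Z * q) := by
      rw [le_div_iff₀ (by positivity)]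
      have h6 : 0 ≤ 2 * (Z : ℝ) * q := by positivity
      linarith only [m1, h6]
    have h3 : (m : ℝ) / (Z * q) = m / (2 * Z * q) + m / (2 * Z * q) := by
      field_simp; ring
    linarith
  -- lower bound for the mean of a box
  have cH : ((m + 2 * r : ℕ) : ℝ) = m + 2 * r := by push_cast; ring
  have cR : ((R + 2 * r : ℕ) : ℝ) = R + 2 * r := by push_cast; ring
  have hr0 : (0 : ℝ) ≤ r := Nat.cast_nonneg _
  have hρr : 0 ≤ (ρ - 1) * (2 * (r : ℝ)) := mul_nonneg (by linarith) (by positivity)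
  have hρR : 0 ≤ (ρ - 1) * (R : ℝ) := mul_nonneg (by linarith) (Nat.cast_nonneg R)
  have hflat := h.flat (m + 2 * r) (R + 2 * r) (by rw [cH, cR]; linarith only [hρr, hRle])
    (by rw [cH, cR]; linarith only [hρr, hρR, hmR'])
  rw [cH, cR] at hflat
  have hmD0 := mD_nonneg h r K hKr
  have hsq5 : √((m : ℝ) + 2 * r + (R + 2 * r)) ≤ √(5 + ρ) * √m := by
    rw [← Real.sqrt_mul (by linarith)]
    apply Real.sqrt_le_sqrt
    linarith only [hrm'', hRle]
  have hC5 : ((J : ℝ) + 1) * (C * √((m : ℝ) + 2 * r + (R + 2 * r))) ≤ c * m / 4 := by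
    have h1 : 4 * ((J : ℝ) + 1) * C * √(5 + ρ) / c ≤ √m :=
      Real.le_sqrt_of_sq_le m3
    have h2 : 4 * ((J : ℝ) + 1) * C * √(5 + ρ) ≤ c * √m := by
      rw [div_le_iff₀ hc0] at h1; linarith
    have h3 : ((J : ℝ) + 1) * (C * √((m : ℝ) + 2 * r + (R + 2 * r))) ≤
        ((J : ℝ) + 1) * (C * (√(5 + ρ) * √m)) := by
      apply mul_le_mul_of_nonneg_left _ hJ1.le
      exact mul_le_mul_of_nonneg_left hsq5 hC
    have h4 : 4 * (((J : ℝ) + 1) * (C * (√(5 + ρ) * √m))) ≤ (c * √m) * √m := by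
      have := mul_le_mul_of_nonneg_right h2 hsm.le
      linarith
    have h5 : (c * √m) * √(m : ℝ) = c * m := by rw [mul_assoc, hsm2]
    linarith
  -- the main inequality
  have hcore := core_le h (J := J) (H := m) (R := R) (r := r) (K := K) (w := w) (NL := NL)
    (μ := c * m / 4) hKr hw0 (by positivity) (by
      have h1 : (((J + 1) * R : ℕ) : ℝ) < ((NL * w : ℕ) : ℝ) := by
        push_cast
        have h2 : ((J : ℝ) + 1) * R ≤ ((J : ℝ) + 1) * (ρ * m) :=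
          mul_le_mul_of_nonneg_left hRle hJ1.le
        have h3 : ((J : ℝ) + 1) * ρ * (2 * Wn) * (m / (2 * Wn)) = ((J : ℝ) + 1) * (ρ * m) := by
          field_simp
        have h4 : ((J : ℝ) + 1) * ρ * (2 * Wn) * (m / (2 * Wn)) < NL * (m / (2 * Wn)) :=
          mul_lt_mul_of_pos_right hNL (by positivity)
        have h5 : (NL : ℝ) * (m / (2 * Wn)) ≤ NL * w :=
          mul_le_mul_of_nonneg_left hwge (Nat.cast_nonneg _)
        linarith
      exact_mod_cast h1) (by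
      intro i l c0' hi1 hi2 hc0' hl1 hl2 hbad
      have h1 := far_bound h hκ0 hc0 hgap hi1 hi2 hc0' hl1 hl2 hbad hRge hKκ
      have h2 : ((J : ℝ) + 1) * (α * ((m : ℝ) + R) - C * √((m : ℝ) + 2 * r + (R + 2 * r))) ≤
          ((J : ℝ) + 1) * (FF k (m + 2 * r) (R + 2 * r) - 4 * α * r + 2 * mD k α r K) := by
        apply mul_le_mul_of_nonneg_left _ hJ1.le
        linarith
      have h3 : α * (w : ℝ) ≤ c * m / 4 := by
        have : α * (w : ℝ) ≤ 1 * w := mul_le_mul_of_nonneg_right hα1 (Nat.cast_nonneg _)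
        linarith
      have h4 : 0 ≤ c * (m : ℝ) := by positivity
      linarith only [h1, h2, h3, h4, hC5])
  -- lower bound for the long box
  have cJm : (((J + 1) * m : ℕ) : ℝ) = ((J : ℝ) + 1) * m := by push_cast; ring
  have cJR : (((J + 1) * R : ℕ) : ℝ) = ((J : ℝ) + 1) * R := by push_cast; ring
  have hJR1 := mul_le_mul_of_nonneg_left hRle hJ1.le
  have hJR2 := mul_le_mul_of_nonneg_left hmR' hJ1.le
  have hJR3 := mul_nonneg hJ1.le hρR
  have hlong := h.flat ((J + 1) * m) ((J + 1) * R) (by rw [cJm, cJR]; linarith only [hJR1])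
    (by rw [cJm, cJR]; linarith only [hJR2, hJR3])
  rw [cJm, cJR] at hlong
  -- the error terms
  have hmD := inf r r (2 * r) le_rfl (by omega)
  have hmD' : mD k α r K ≤ 8 * (C₁ + 12) * √r := by
    refine le_trans (le_of_eq ?_) hmD
    unfold mD
    apply E2_congr
    intro x y hx _
    rw [List.take_of_length_le hx.le]
  have hsr : A * √(r : ℝ) ≤ ε / 4 * √m := by
    have h1 : √(r : ℝ) ≤ √m / √Z := by
      rw [← Real.sqrt_div hm0.le]
      exact Real.sqrt_le_sqrt hrm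
    have h2 : 4 * A / ε ≤ √Z := Real.le_sqrt_of_sq_le hZA
    have hsZ : 0 < √(Z : ℝ) := Real.sqrt_pos.mpr hZ0
    have h3 : A ≤ ε / 4 * √Z := by
      rw [div_le_iff₀ hε] at h2; linarith
    calc A * √(r : ℝ) ≤ A * (√m / √Z) := mul_le_mul_of_nonneg_left h1 hA0.le
      _ ≤ (ε / 4 * √Z) * (√m / √Z) := mul_le_mul_of_nonneg_right h3 (by positivity)
      _ = ε / 4 * √m := by field_simp
  have hlongerr : C * √(((J : ℝ) + 1) * m + ((J : ℝ) + 1) * R) ≤ ((J : ℝ) + 1) * (ε / 4 * √m) := by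
    have h1 : √(((J : ℝ) + 1) * m + ((J : ℝ) + 1) * R) ≤ √(((J : ℝ) + 1) * (1 + ρ)) * √m := by
      rw [← Real.sqrt_mul (by positivity)]
      apply Real.sqrt_le_sqrt
      linarith only [hJR1]
    have h2 : C * √(((J : ℝ) + 1) * (1 + ρ)) ≤ ((J : ℝ) + 1) * (ε / 4) := by
      have h3 : (C * √(((J : ℝ) + 1) * (1 + ρ))) ^ 2 ≤ (((J : ℝ) + 1) * (ε / 4)) ^ 2 := by
        rw [mul_pow, Real.sq_sqrt (by positivity)]
        have h4 : (4 * C / ε) ^ 2 * (1 + ρ) ≤ (J : ℝ) + 1 := by linarith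
        have h5 : (4 * C / ε) ^ 2 = 16 * C ^ 2 / ε ^ 2 := by rw [div_pow]; ring
        rw [h5, div_mul_eq_mul_div, div_le_iff₀ (by positivity)] at h4
        have h6 := mul_le_mul_of_nonneg_left h4 hJ1.le
        linarith only [h6]
      exact (pow_le_pow_iff_left₀ (by positivity) (by positivity) two_ne_zero).mp h3
    calc C * √(((J : ℝ) + 1) * m + ((J : ℝ) + 1) * R)
        ≤ C * (√(((J : ℝ) + 1) * (1 + ρ)) * √m) := mul_le_mul_of_nonneg_left h1 hC
      _ = (C * √(((J : ℝ) + 1) * (1 + ρ))) * √m := by ring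
      _ ≤ (((J : ℝ) + 1) * (ε / 4)) * √m := mul_le_mul_of_nonneg_right h2 hsm.le
      _ = _ := by ring
  have hN : (((J + 1) * NL : ℕ) : ℝ) * ((3 * ((J : ℝ) + 1) + 2) ^ 2 *
        ((((J + 1) * m + 2 * r : ℕ) : ℝ) + (((J + 1) * R + 2 * r : ℕ) : ℝ)) /
          (4 * (c * m / 4))) ≤ ((J : ℝ) + 1) * (ε / 4 * √m) := by
    have h1 : (3 * ((J : ℝ) + 1) + 2) ^ 2 *
        ((((J + 1) * m + 2 * r : ℕ) : ℝ) + (((J + 1) * R + 2 * r : ℕ) : ℝ)) /
          (4 * (c * m / 4)) ≤ E0 := by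
      have e1 : (((J + 1) * m + 2 * r : ℕ) : ℝ) = ((J : ℝ) + 1) * m + 2 * r := by push_cast; ring
      have e2 : (((J + 1) * R + 2 * r : ℕ) : ℝ) = ((J : ℝ) + 1) * R + 2 * r := by push_cast; ring
      rw [e1, e2, hE0, div_le_div_iff₀ (by positivity) hc0]
      have h2 : ((J : ℝ) + 1) * m + 2 * r + (((J : ℝ) + 1) * R + 2 * r) ≤
          (((J : ℝ) + 1) * (1 + ρ) + 4) * m := by linarith only [hJR1, hrm'']
      have h3 : 0 ≤ (3 * ((J : ℝ) + 1) + 2) ^ 2 * c := by positivity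
      have h4 := mul_le_mul_of_nonneg_left h2 h3
      calc _ = (3 * ((J : ℝ) + 1) + 2) ^ 2 * c *
            (((J : ℝ) + 1) * m + 2 * r + (((J : ℝ) + 1) * R + 2 * r)) := by ring
        _ ≤ _ := h4
        _ = _ := by ring
    have h2 : 4 * N1 / ε ≤ √m := Real.le_sqrt_of_sq_le m4
    have h3 : N1 ≤ ε / 4 * √m := by rw [div_le_iff₀ hε] at h2; linarith
    have h4 : (((J + 1) * NL : ℕ) : ℝ) * ((3 * ((J : ℝ) + 1) + 2) ^ 2 *
        ((((J + 1) * m + 2 * r : ℕ) : ℝ) + (((J + 1) * R + 2 * r : ℕ) : ℝ)) /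
          (4 * (c * m / 4))) ≤ N1 := mul_le_mul_of_nonneg_left h1 (Nat.cast_nonneg _)
    have h5 : ε / 4 * √(m : ℝ) ≤ ((J : ℝ) + 1) * (ε / 4 * √m) := by
      have : 0 ≤ (J : ℝ) * (ε / 4 * √m) := by positivity
      linarith
    linarith
  -- divide by J + 1
  rw [cH, cR]
  have hfinal : ((J : ℝ) + 1) * (α * ((m : ℝ) + 2 * r + (R + 2 * r)) - ε * √m) ≤
      ((J : ℝ) + 1) * FF k (m + 2 * r) (R + 2 * r) := by
    have h1 : ((J : ℝ) + 1) * (2 * mD k α r K) ≤ ((J : ℝ) + 1) * (ε / 4 * √m) := by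
      apply mul_le_mul_of_nonneg_left _ hJ1.le
      have : 2 * (8 * (C₁ + 12) * √(r : ℝ)) = A * √r := by rw [hA]; ring
      linarith
    have h2 : 0 ≤ ((J : ℝ) + 1) * (ε / 4 * √m) := by positivity
    linarith only [hcore, hlong, hlongerr, hN, h1, h2]
  exact le_of_mul_le_mul_left hfinal hJ1

end Pool.Agent.LCSB85
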